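import Pool.Agent.N762.RC.RPow

/-!
Models of tame radical extensions of the inverse images of varieties of bounded degree under the
maps which raise the coordinates to arbitrary powers.
-/

set_option autoImplicit false
set_option linter.unusedVariables false
set_option linter.unusedSimpArgs false
set_option linter.unusedSectionVars false

universe u

open MvPolynomial Pool.Agent.W558 Pool.Agent.W418.LCI Pool.Agent.N98

namespace Pool.Agent.N762.RC

/-- The homomorphism which extracts roots. -/
lemma exists_rho (p : ℕ) [Fact p.Prime] {F E : Type u} [Field F] [Field E] [CharP E p]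
    [Algebra F E] (e : ℕ) (h : ∀ a : F, ∃ b : E, b ^ p ^ e = algebraMap F E a) :
    ∃ ρ : F →+* E, ∀ a, (ρ a) ^ p ^ e = algebraMap F E a := by
  have : ExpChar E p := ExpChar.prime Fact.out
  have hinj : ∀ a b : E, a ^ p ^ e = b ^ p ^ e → a = b := by
    intro a b hab
    have h1 := (iterateFrobenius E p e).injective (a₁ := a) (a₂ := b)
    rw [iterateFrobenius_def, iterateFrobenius_def] at h1
    exact h1 hab
  choose r hr using h
  refine ⟨⟨⟨⟨r, ?_⟩, ?_⟩, ?_, ?_⟩, hr⟩
  · apply hinj
    rw [hr, map_one, one_pow]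
  · intro a b
    apply hinj
    rw [hr, map_mul, mul_pow, hr, hr]
  · change r 0 = 0
    apply hinj
    rw [hr, map_zero, zero_pow (pow_ne_zero _ (Fact.out : p.Prime).ne_zero)]
  · intro a b
    change r (a + b) = r a + r b
    apply hinj
    rw [hr, map_add, ← iterateFrobenius_def, map_add, iterateFrobenius_def, iterateFrobenius_def,
      hr, hr]

/-- The field generated by powers of generators. -/
lemma alg_of_pow' {F E K : Type u} [Field F] [Field E] [Field K] [Algebra F E] [Algebra E K]
    [Algebra F K] [IsScalarTower F E K] [Algebra.IsAlgebraic F E] {N : ℕ} (y : Fin N → K)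
    (htop : IntermediateField.adjoin E (Set.range y) = ⊤)
    (K1 : IntermediateField F K) (n : Fin N → ℕ) (hn : ∀ i, n i ≠ 0) (h : ∀ i, y i ^ n i ∈ K1) :
    Algebra.IsAlgebraic K1 K := by
  refine ⟨fun z => ?_⟩
  have hz : z ∈ IntermediateField.adjoin E (Set.range y) := by
    rw [htop]
    trivial
  induction hz using IntermediateField.adjoin_induction with
  | mem z hz =>
    obtain ⟨i, rfl⟩ := hz
    have h3 : y i ^ n i = algebraMap K1 K ⟨y i ^ n i, h i⟩ := rfl
    have h4 : IsAlgebraic K1 (y i ^ n i) := by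
      rw [h3]
      exact isAlgebraic_algebraMap _
    exact h4.of_pow (Nat.pos_of_ne_zero (hn i))
  | algebraMap c =>
    have h1 : IsAlgebraic F (algebraMap E K c) :=
      (Algebra.IsAlgebraic.isAlgebraic (R := F) c).algebraMap
    exact h1.tower_top K1
  | add a b _ _ ha hb => exact ha.add hb
  | inv a _ ha => exact ha.inv
  | mul a b _ _ ha hb => exact ha.mul hb

/-- The trdeg. -/
lemma trdeg_of_pow {F E K : Type u} [Field F] [Field E] [Field K] [Algebra F E] [Algebra E K]
    [Algebra F K] [IsScalarTower F E K] [Algebra.IsAlgebraic F E] {N : ℕ} (y : Fin N → K)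
    (htop : IntermediateField.adjoin E (Set.range y) = ⊤) (n : Fin N → ℕ) (hn : ∀ i, n i ≠ 0)
    (d : ℕ) (hd : Algebra.trdeg F (IntermediateField.adjoin F (Set.range fun i => y i ^ n i)) = d) :
    Algebra.trdeg F K = d := by
  have halg := alg_of_pow' y htop (IntermediateField.adjoin F (Set.range fun i => y i ^ n i)) n hn
    (fun i => IntermediateField.subset_adjoin _ _ ⟨i, rfl⟩)
  have h1 : Algebra.trdeg F (IntermediateField.adjoin F (Set.range fun i => y i ^ n i)) +
      Algebra.trdeg (IntermediateField.adjoin F (Set.range fun i => y i ^ n i)) K =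
      Algebra.trdeg F K := trdeg_add_eq F _
  have h2 : Algebra.trdeg (IntermediateField.adjoin F (Set.range fun i => y i ^ n i)) K = 0 :=
    trdeg_eq_zero
  rw [← h1, h2, add_zero, hd]

/-- **Tame radical extensions.** The products are given by families of boundary functions. -/
theorem rfin (p : ℕ) [Fact p.Prime] {k F E K0 K : Type u} [Field k] [CharP k p] [Field F]
    [Field E] [Field K0] [Algebra k E] [Algebra F E] [Algebra.IsAlgebraic F E]
    [Algebra E K0] [Algebra F K0] [IsScalarTower F E K0] [Algebra k K0] [IsScalarTower k E K0]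
    (hE : HasLM k E)
    {N : ℕ} (y : Fin N → K0) (m : Fin N → ℕ) (e : ℕ) (hm : ∀ i, ¬ p ^ (e + 1) ∣ m i)
    (hF : ∀ a : F, ∃ b : E, b ^ p ^ e = algebraMap F E a)
    (htop : IntermediateField.adjoin E (Set.range y) = ⊤) (d D C0 : ℕ)
    (htr : Algebra.trdeg F (IntermediateField.adjoin F (Set.range fun i => y i ^ m i)) = d)
    (hδ : ∀ t : ℕ, d.factorial * Module.finrank F (img F (fun j => y j ^ m j) t) ≤
      D * (t + C0) ^ d) (hD : ((Nat.factorial (D ^ 2 ^ (N - 1)) : ℕ) : k) ≠ 0)
    [Field K] [Algebra K0 K] [Algebra k K] [IsScalarTower k K0 K]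
    (P : Type) [Finite P] (z : P → K0) (hz0 : ∀ b, z b ≠ 0)
    (c : P → E) (a : P → Fin N → ℤ) (q : P → ℕ) (G : (b : P) → Fin (q b) → MvPolynomial (Fin N) F)
    (e' : (b : P) → Fin (q b) → ℤ) (hG : ∀ b i, (G b i).totalDegree ≤ D)
    (hz : ∀ b, z b = algebraMap E K0 (c b) * (∏ i, y i ^ a b i) *
      ∏ i, (aeval (fun i => y i ^ m i) (G b i)) ^ e' b i)
    {s : ℕ} (w : Fin s → K) (hw0 : ∀ j, w j ≠ 0) (n : Fin s → ℕ) (hn : ∀ j, ¬ p ∣ n j)
    (bw : Fin s → P) (hw : ∀ j, w j ^ n j = algebraMap K0 K (z (bw j)))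
    (hgen : IntermediateField.adjoin K0 (Set.range w) = ⊤) :
    ∃ (T I : Type) (_ : Finite T) (_ : Fintype I) (M : LM (⊥ : Subalgebra k K) ⊤ T I),
      Frc M ∧ (∀ b, IsBr M (algebraMap K0 K (z b))) ∧ ∀ j, IsBr M (w j) := by
  classical
  have := Fintype.ofFinite P
  have hEp : CharP E p := charP_of_injective_algebraMap (algebraMap k E).injective p
  obtain ⟨ρ, hρ⟩ := exists_rho p e hF
  have hm0 : ∀ i, m i ≠ 0 := by
    intro i h
    apply hm i
    rw [h]
    exact dvd_zero _
  have htr' := trdeg_of_pow y htop m hm0 d htr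
  let H : (Σ b, Fin (q b)) → K0 := fun i => aeval (fun i => y i ^ m i) (G i.1 i.2)
  obtain ⟨T, I, hT, hI, M, hFr, hM1, hM2, hM3⟩ := rall_models p hE y m e hm ρ hρ htop d D C0 htr'
    hδ (fun _ => hD) {i : Σ b, Fin (q b) // H i ≠ 0} (fun i => G i.1.1 i.1.2) (fun i => i.2)
    (fun i => hG i.1.1 i.1.2) {b : P // c b ≠ 0} (fun b => c b.1) (fun b => b.2)
  have hzb : ∀ b, IsBr M (z b) := by
    intro b
    have hj := hz0 b
    rw [hz b] at hj ⊢
    rw [mul_ne_zero_iff, mul_ne_zero_iff, Finset.prod_ne_zero_iff, Finset.prod_ne_zero_iff] at hj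
    refine IsBr.mul (IsBr.mul ?_ (IsBr.prod _ _ fun i _ => ?_)) (IsBr.prod _ _ fun i _ => ?_)
    · refine hM2 ⟨b, fun h => hj.1.1 ?_⟩
      rw [h, map_zero]
    · by_cases h0 : y i = 0
      · have h1 : a b i = 0 := by
          by_contra h2
          apply hj.1.2 i (Finset.mem_univ i)
          rw [h0, zero_zpow _ h2]
        rw [h1, zpow_zero]
        exact IsB.one.br
      · exact (hM3 i h0).zpow _
    · by_cases h0 : H ⟨b, i⟩ = 0
      · have h1 : e' b i = 0 := by
          by_contra h2
          apply hj.2 i (Finset.mem_univ i)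
          change H ⟨b, i⟩ ^ e' b i = 0
          rw [h0, zero_zpow _ h2]
        rw [h1, zpow_zero]
        exact IsB.one.br
      · exact (hM1 ⟨⟨b, i⟩, h0⟩).zpow _
  obtain ⟨T', I', hT', hI', M', hFr', hM1', hM2'⟩ := kummer_isBr p M hFr z hzb w hw0 n
    (fun j h => hn j ((CharP.cast_eq_zero_iff k p _).1 h))
    (fun j => Pi.single (bw j) 1) (fun j => by
      rw [Finset.prod_eq_single (bw j)]
      · rw [Pi.single_eq_same, zpow_one, hw]
      · intro l _ hl
        rw [Pi.single_eq_of_ne hl, zpow_zero]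
      · intro h
        exact absurd (Finset.mem_univ _) h) hgen
  exact ⟨T', I', hT', hI', M', hFr', hM1', hM2'⟩

end Pool.Agent.N762.RC
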