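import Pool.Agent.N98.Fin
import Pool.Agent.TH214.V.KumM

/-!
Tame radical extensions of fields with a model: powers prime to the characteristic of the
generators are monomials in boundary functions.
-/

set_option autoImplicit false
set_option linter.unusedVariables false
set_option linter.unusedSectionVars false

universe u

open Pool.Agent.W558 Pool.Agent.N98 Pool.Agent.TH214.V

namespace Pool.Agent.N762.RC

/-- A field with a model has finite transcendence degree. -/
theorem exists_trdeg {k K : Type u} [Field k] [Field K] [Algebra k K] {T I : Type} [Fintype I]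
    (M : LM (⊥ : Subalgebra k K) ⊤ T I) (hFr : Frc M) : ∃ d : ℕ, Algebra.trdeg k K = d := by
  obtain ⟨t⟩ := nonempty_T M
  have hsm := M.sm t
  have hfr : IsFractionRing (M.A t) K := by
    refine IsFractionRing.of_field _ _ fun z => ?_
    obtain ⟨u, hu, v, hv, hv0, h⟩ := hFr t z
    exact ⟨⟨u, hu⟩, ⟨v, hv⟩, by rw [h, div_eq_mul_inv]; rfl⟩
  have h1 : Algebra.EssFiniteType (M.A t) K :=
    Algebra.EssFiniteType.of_isLocalization K (nonZeroDivisors (M.A t))
  have h2 : Algebra.EssFiniteType k K := Algebra.EssFiniteType.comp k (M.A t) K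
  exact Cardinal.lt_aleph0.1 (trdeg_lt_aleph0 k K)

variable {k E1 K0 : Type u} [Field k] [Field E1] [Field K0] [Algebra k E1]
  [Algebra k K0] [Algebra E1 K0] [IsScalarTower k E1 K0]

/-- **Tame radical extensions.** -/
theorem kummer_isBr (p : ℕ) [Fact p.Prime] {T I : Type} [Finite T] [Fintype I] (M : LM (⊥ : Subalgebra k E1) ⊤ T I) (hFr : Frc M)
    {B : Type} [Fintype B] (g : B → E1) (hg : ∀ b, IsBr M (g b))
    {r : ℕ} (w : Fin r → K0) (hw0 : ∀ j, w j ≠ 0) (m : Fin r → ℕ) (hm : ∀ j, (m j : k) ≠ 0)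
    (lam : Fin r → B → ℤ) (hw : ∀ j, w j ^ m j = algebraMap E1 K0 (∏ b, g b ^ lam j b))
    (hgen : IntermediateField.adjoin E1 (Set.range w) = ⊤) :
    ∃ (T' I' : Type) (_ : Finite T') (_ : Fintype I') (M' : LM (⊥ : Subalgebra k K0) ⊤ T' I'),
      Frc M' ∧ (∀ b, IsBr M' (algebraMap E1 K0 (g b))) ∧ ∀ j, IsBr M' (w j) := by
  classical
  obtain ⟨d0, htr⟩ := exists_trdeg M hFr
  obtain ⟨N, hN, hB⟩ := exists_common hg
  choose Γ hΓ using hB
  have hGM : GM p k (fun e : Empty => (e.elim : E1)) (fun b => g b ^ N) :=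
    ⟨T, I, inferInstance, inferInstance, M, fun e => e.elim, fun _ e => e.elim, fun _ e => e.elim,
      Γ, ⟨fun _ e => e.elim, fun _ e => e.elim, fun _ _ _ _ _ e => e.elim⟩,
      fun b t => hΓ b t, hFr⟩
  set μ : ℕ := N * ∏ j, m j with hμ
  have hμ0 : (μ : k) ≠ 0 := by
    rw [hμ, Nat.cast_mul, Nat.cast_prod]
    exact mul_ne_zero hN (Finset.prod_ne_zero_iff.2 fun j _ => hm j)
  let c : Fin r → ℕ := fun j => ∏ l ∈ Finset.univ.erase j, m l
  have hc : ∀ j, μ = m j * (c j * N) := by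
    intro j
    rw [hμ, ← Finset.mul_prod_erase Finset.univ m (Finset.mem_univ j)]
    change N * (m j * c j) = _
    ring
  obtain ⟨T', I', hT', hI', M', n', a', h', Γ', hN', hF', hR'⟩ := kummer_gm p htr hμ0 hw0 hGM
    (fun j b => lam j b * c j) (fun j => by
      rw [hc j, pow_mul, hw j, ← map_pow, ← Finset.prod_pow]
      congr 1
      refine Finset.prod_congr rfl fun b _ => ?_
      rw [← zpow_natCast, ← zpow_natCast, ← zpow_mul, ← zpow_mul]
      congr 1
      push_cast
      ring) hgen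
  refine ⟨T', I', hT', hI', M', hR', fun b => ⟨N, hN, Γ' (Sum.inl b), fun t => ?_⟩,
    fun j => ⟨1, by rw [Nat.cast_one]; exact one_ne_zero, Γ' (Sum.inr j), fun t => ?_⟩⟩
  · have h1 := hF' (Sum.inl b) t
    change ∃ w, w ≠ 0 ∧ w ∈ M'.A t ∧ w⁻¹ ∈ M'.A t ∧ algebraMap E1 K0 (g b ^ N) = _ at h1
    rw [map_pow] at h1
    exact h1
  · rw [pow_one]
    exact hF' (Sum.inr j) t

end Pool.Agent.N762.RC
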