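import Pool.Agent.N98.Cut
import Pool.Agent.N98.Hyp

/-!
Restriction of a model to a divisor which is contained in the zeros of a boundary function.
The proofs are those of helper98 (`Pool/Agent/N98/Cut.lean`, `Pool/Agent/N98/Hyp.lean`).
-/

set_option autoImplicit false
set_option linter.unusedVariables false
set_option linter.unusedSimpArgs false
set_option linter.unusedSectionVars false

universe u

open Pool.Agent.W558 Pool.Agent.W973.CUT Pool.Agent.W973.CUT2 Pool.Agent.N98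

namespace Pool.Agent.N762.RC

section cut

variable {k K L : Type u} [Field k] [Field K] [Algebra k K] [Field L] [Algebra k L]
  {Q : Subalgebra k K} (π : Q →ₐ[k] L)

/-- **Restriction of a model to a divisor** (the theorem `cut` of helper98), where the divisor is
only known to be contained in the zeros of a boundary function `f`, and `u` is a uniformizer. -/
theorem cut' (hs : Function.Surjective π) (hQ : ∀ x : K, x ∈ Q ∨ x⁻¹ ∈ Q)
    (hinv : ∀ b : K, b ∈ Q → pq π b ≠ 0 → b⁻¹ ∈ Q) (f : K) (hfQ : f ∈ Q) (hf0 : f ≠ 0)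
    (hfπ : pq π f = 0) (u : K) (huQ : u ∈ Q) (hu0 : u ≠ 0) (huπ : pq π u = 0)
    (hun : ∀ q ∈ Q, pq π q = 0 → q / u ∈ Q)
    {T I : Type} [Finite T] [Fintype I] (M : LM (⊥ : Subalgebra k K) ⊤ T I) (hMf : IsBr M f)
    (hdom : ∀ t, M.A t ≤ Q → ∀ q ∈ Q, ∃ a ∈ M.A t, ∃ b ∈ M.A t, pq π b ≠ 0 ∧ q * b = a) :
    ∃ (T' I' : Type) (_ : Finite T') (_ : Fintype I') (M' : LM (⊥ : Subalgebra k L) ⊤ T' I'),
      Frc M' ∧ ∀ g, g ∈ Q → pq π g ≠ 0 → IsBr M g → IsBr M' (pq π g) := by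
  classical
  have hne : ∀ {b : K}, pq π b ≠ 0 → b ≠ 0 := by
    rintro b hb rfl
    exact hb (pq_zero π)
  have hK : ∀ x : K, (∃ a b : Q, π b ≠ 0 ∧ x * b = a) ∨
      (∃ a b : Q, π b ≠ 0 ∧ x⁻¹ * b = a) := by
    intro x
    have key : ∀ x : K, x ∈ Q → ∃ a b : Q, π b ≠ 0 ∧ x * b = a := fun x hx =>
      ⟨⟨x, hx⟩, 1, by rw [map_one]; exact one_ne_zero, by simp⟩
    exact (hQ x).imp (key x) (key _)
  have hinv' : ∀ b : Q, π b ≠ 0 → (b : K)⁻¹ ∈ Q := fun b hb =>
    hinv b b.2 (by rw [pq_coe]; exact hb)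
  -- units of `Q`
  have hunit : ∀ b : K, b ∈ Q → b ≠ 0 → b⁻¹ ∈ Q → pq π b ≠ 0 := fun b hb h0 hb' =>
    pq_ne π h0 hb hb'
  let τ : {t : T // M.A t ≤ Q} → T := Subtype.val
  have hAQ : ∀ t, M.A (τ t) ≤ Q := fun t => t.2
  obtain ⟨N, hN, γ, hγ⟩ := hMf
  have hN0 : N ≠ 0 := by
    rintro rfl
    exact hN Nat.cast_zero
  -- Claim 1: some component contains the divisor
  have claim1 : ∀ t : {t : T // M.A t ≤ Q}, ∃ i, pq π (M.x (τ t) i) = 0 := by
    intro t
    by_contra hcon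
    push Not at hcon
    obtain ⟨w, h0, h1, h2, h3⟩ := hγ (τ t)
    have h4 : (f ^ N)⁻¹ ∈ Q := by
      rw [h3, mul_inv, ← Finset.prod_inv_distrib]
      refine Q.mul_mem (hAQ t h2) (Q.prod_mem fun i _ => ?_)
      rw [← zpow_neg]
      exact zpow_mem_of (hAQ t (M.xA _ i)) (Or.inr (hinv _ (hAQ t (M.xA _ i)) (hcon i)))
    have h5 := hunit (f ^ N) (Q.pow_mem hfQ N) (pow_ne_zero _ hf0) h4
    rw [pq_pow π hfQ, hfπ, zero_pow hN0] at h5
    exact h5 rfl
  -- Claim 2: it is unique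
  have claim2 : ∀ (t : {t : T // M.A t ≤ Q}) (i j : I), pq π (M.x (τ t) i) = 0 →
      pq π (M.x (τ t) j) = 0 → i = j := by
    intro t i j hi hj
    by_contra hij
    -- assume `x j / x i ∈ Q`
    have key : ∀ i j, i ≠ j → pq π (M.x (τ t) i) = 0 → pq π (M.x (τ t) j) = 0 →
        M.x (τ t) j / M.x (τ t) i ∈ Q → False := by
      intro i j hij hi hj h
      obtain ⟨a, ha, b, hb, hb0, hab⟩ := hdom (τ t) (hAQ t) _ h
      have e1 : M.x (τ t) j * b = a * M.x (τ t) i := by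
        rw [← hab]
        have := M.x0 (τ t) i
        field_simp
      obtain ⟨D, hD, hD'⟩ := M.snc (τ t) L (gp π (hAQ t)) j (M.xA _ j) (by
        rw [gp_apply]; exact hj)
      have e2 : (⟨M.x (τ t) j, M.xA _ j⟩ : M.A (τ t)) * ⟨b, hb⟩ =
          ⟨a, ha⟩ * ⟨M.x (τ t) i, M.xA _ i⟩ := Subtype.ext e1
      have e3 := congrArg D.D e2
      rw [D.leib, D.leib, hD, hD' i (M.xA _ i) hij (by rw [gp_apply]; exact hi), gp_apply,
        gp_apply, gp_apply, gp_apply, hi, hj, zero_mul, zero_mul, mul_zero, zero_add, mul_one,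
        add_zero] at e3
      exact hb0 e3
    rcases hQ (M.x (τ t) j / M.x (τ t) i) with h | h
    · exact key i j hij hi hj h
    · rw [inv_div] at h
      exact key j i (Ne.symm hij) hj hi h
  have hT' : Nonempty {t : T // M.A t ≤ Q} := by
    let V : ValuationSubring K :=
      { carrier := Q
        mul_mem' := fun ha hb => Q.mul_mem ha hb
        one_mem' := Q.one_mem
        add_mem' := fun ha hb => Q.add_mem ha hb
        zero_mem' := Q.zero_mem
        neg_mem' := fun ha => Q.neg_mem ha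
        mem_or_inv_mem' := hQ }
    obtain ⟨t, ht⟩ := M.cv V (by
      intro a ha
      obtain ⟨r, rfl⟩ := Algebra.mem_bot.1 ha
      exact Q.algebraMap_mem r)
    exact ⟨⟨t, ht⟩⟩
  obtain ⟨t0⟩ := hT'
  obtain ⟨i0, hi0⟩ := claim1 t0
  -- Claim 3: the component is the same on all charts
  have claim3 : ∀ t : {t : T // M.A t ≤ Q}, pq π (M.x (τ t) i0) = 0 := by
    intro t
    have hOV : OV M (τ t) (τ t0) ≤ Q := by
      refine adj_le (hAQ t) ?_
      rw [inv_div]
      exact hAQ t0 (M.rt _ _)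
    have h1 : M.x (τ t) i0 = M.x (τ t) i0 / M.x (τ t0) i0 * M.x (τ t0) i0 := by
      rw [div_mul_cancel₀ _ (M.x0 _ _)]
    rw [h1, pq_mul π (hOV (u_inv_mem_OV M (τ t) (τ t0) i0)) (hAQ t0 (M.xA _ _)), hi0, mul_zero]
  have hx0 : ∀ (t : {t : T // M.A t ≤ Q}) (i : I), i ≠ i0 → pq π (M.x (τ t) i) ≠ 0 :=
    fun t i hi h => hi (claim2 t i i0 h (claim3 t))
  -- Claim 4: the component is a uniformizer
  have claim4 : ∀ t : {t : T // M.A t ≤ Q}, ∀ q ∈ Q, pq π q = 0 → q / M.x (τ t) i0 ∈ Q := by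
    intro t q hq hq0
    have h1 : u / M.x (τ t) i0 ∈ Q := by
      by_contra hcon
      have h2 : M.x (τ t) i0 / u ∈ Q := hun _ (hAQ t (M.xA _ _)) (claim3 t)
      have h3 : pq π (M.x (τ t) i0 / u) = 0 := by
        by_contra h4
        have h5 := hinv _ h2 h4
        rw [inv_div] at h5
        exact hcon h5
      have h4 := hun _ h2 h3
      obtain ⟨a, ha, b, hb, hb0, hab⟩ := hdom (τ t) (hAQ t) _ huQ
      obtain ⟨c, hc, d, hd, hd0, hcd⟩ := hdom (τ t) (hAQ t) _ h4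
      have ha0 : pq π a = 0 := by rw [← hab, pq_mul π huQ (hAQ t hb), huπ, zero_mul]
      have e1 : M.x (τ t) i0 * (b * b * d) = a * a * c := by
        rw [← hab, ← hcd]
        field_simp
      obtain ⟨D, hD, hD'⟩ := M.snc (τ t) L (gp π (hAQ t)) i0 (M.xA _ i0) (by
        rw [gp_apply]; exact claim3 t)
      have hbbd : b * b * d ∈ M.A (τ t) :=
        (M.A _).mul_mem ((M.A _).mul_mem hb hb) hd
      have e2 : (⟨M.x (τ t) i0, M.xA _ i0⟩ : M.A (τ t)) * ⟨b * b * d, hbbd⟩ =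
          ⟨a, ha⟩ * ⟨a, ha⟩ * ⟨c, hc⟩ := Subtype.ext e1
      have e3 := congrArg D.D e2
      have e4 : gp π (hAQ t) (⟨a, ha⟩ * ⟨a, ha⟩) = 0 := by
        rw [map_mul, gp_apply, ha0, zero_mul]
      rw [D.leib, D.leib, D.leib, hD, e4, gp_apply, gp_apply, gp_apply, gp_apply,
        claim3 t, ha0] at e3
      have e5 : pq π (b * b * d) = 0 := by
        linear_combination e3
      rw [pq_mul π (hAQ t ((M.A _).mul_mem hb hb)) (hAQ t hd), pq_mul π (hAQ t hb) (hAQ t hb)]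
        at e5
      exact mul_ne_zero (mul_ne_zero hb0 hb0) hd0 e5
    have h2 : q / M.x (τ t) i0 = q / u * (u / M.x (τ t) i0) := by
      have := M.x0 (τ t) i0
      field_simp
    rw [h2]
    exact Q.mul_mem (hun q hq hq0) h1
  let y : {t : T // M.A t ≤ Q} → K := fun t => M.x (τ t) i0
  have hy : ∀ t, y t ∈ M.A (τ t) := fun t => M.xA _ _
  have hy0 : ∀ t, y t ≠ 0 := fun t => M.x0 _ _
  have hv0 : ∀ t (κ : Type u) [Field κ] [Algebra k κ] (φ : M.A (τ t) →ₐ[k] κ),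
      φ ⟨y t, hy t⟩ = 0 → ∃ D : TV φ, D.D ⟨y t, hy t⟩ ≠ 0 := by
    intro t κ _ _ φ hφ
    obtain ⟨D, hD, -⟩ := M.snc (τ t) κ φ i0 (hy t) hφ
    exact ⟨D, by
      have : D.D ⟨y t, hy t⟩ = 1 := hD
      rw [this]; exact one_ne_zero⟩
  have hmin : ∀ t, RingHom.ker (qm π (M.A (τ t)) (hAQ t)) ∈
      (Ideal.span {(⟨y t, hy t⟩ : M.A (τ t))}).minimalPrimes := by
    intro t
    refine ⟨⟨RingHom.ker_isPrime _, ?_⟩, ?_⟩
    · rw [Ideal.span_singleton_le_iff_mem, RingHom.mem_ker, qm_apply π (hAQ t) (hy t)]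
      exact Subtype.ext (claim3 t)
    · rintro P'' ⟨hp'', hle''⟩ hPle ⟨a, ha⟩ haker
      have ha0 : pq π a = 0 := by
        rw [RingHom.mem_ker, qm_apply π (hAQ t) ha] at haker
        exact congrArg Subtype.val haker
      obtain ⟨c, hc, d, hd, hd0, hcd⟩ := hdom (τ t) (hAQ t) _ (claim4 t a (hAQ t ha) ha0)
      have e1 : (⟨a, ha⟩ : M.A (τ t)) * ⟨d, hd⟩ = ⟨y t, hy t⟩ * ⟨c, hc⟩ := by
        apply Subtype.ext
        change a * d = M.x (τ t) i0 * c
        rw [← hcd]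
        have := M.x0 (τ t) i0
        field_simp
      have e2 : (⟨a, ha⟩ : M.A (τ t)) * ⟨d, hd⟩ ∈ P'' := by
        rw [e1]
        exact P''.mul_mem_right _ (hle'' (Ideal.mem_span_singleton_self _))
      rcases hp''.mem_or_mem e2 with h | h
      · exact h
      · exfalso
        have h5 := hPle h
        rw [RingHom.mem_ker, qm_apply π (hAQ t) hd] at h5
        exact hd0 (congrArg Subtype.val h5)
  have hker : ∀ t, LK π (M.A (τ t)) (y t) := by
    intro t m' hm' hPm'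
    have hsm := M.sm (τ t)
    have hsq : Algebra.Smooth k (M.A (τ t) ⧸ Ideal.span {(⟨y t, hy t⟩ : M.A (τ t))}) :=
      smooth_quot _ (hv0 t)
    obtain ⟨e, he, h1⟩ := local_ker loc_main (k := k) (⟨y t, hy t⟩ : M.A (τ t))
      (RingHom.ker (qm π (M.A (τ t)) (hAQ t))) m' (hmin t) hm' (by
        rintro ⟨a, ha⟩ haker
        rw [RingHom.mem_ker, qm_apply π (hAQ t) ha] at haker
        exact hPm' a ha (congrArg Subtype.val haker))
    refine ⟨e, he, fun a ha h0 => ?_⟩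
    obtain ⟨b', hb'⟩ := h1 ⟨a, ha⟩ (by
      rw [RingHom.mem_ker, qm_apply π (hAQ t) ha]
      exact Subtype.ext h0)
    have h2 : (e : K) * a = y t * b' := congrArg Subtype.val hb'
    rw [h2, mul_div_cancel_left₀ _ (hy0 t)]
    exact b'.2
  have hsm' : ∀ t, Algebra.Smooth k (im π (M.A (τ t)) (hAQ t)) := by
    intro t
    have := M.sm (τ t)
    exact smooth_im2 π loc_main (hAQ t) (hy t) (claim3 t) (hmin t) (hv0 t)
  have hS : ∀ t, SNC (M.A (τ t)) (fun o : Option {i : I // i ≠ i0} =>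
      o.elim (y t) (fun i => M.x (τ t) i.1)) := by
    intro t κ _ _ φ o ho hφ
    let ξ : Option {i : I // i ≠ i0} → I := fun o => o.elim i0 Subtype.val
    have hξ : Function.Injective ξ := by
      rintro (_ | i) (_ | j) h
      · rfl
      · exact absurd h.symm j.2
      · exact absurd h i.2
      · exact congrArg some (Subtype.ext h)
    have hξx : ∀ o : Option {i : I // i ≠ i0},
        (o.elim (y t) (fun i => M.x (τ t) i.1) : K) = M.x (τ t) (ξ o) := by
      rintro (_ | i)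
      · rfl
      · rfl
    have e : ∀ (o : Option {i : I // i ≠ i0})
        (ho : (o.elim (y t) (fun i => M.x (τ t) i.1) : K) ∈ M.A (τ t)),
        (⟨_, ho⟩ : M.A (τ t)) = ⟨M.x (τ t) (ξ o), M.xA _ _⟩ := fun o ho => Subtype.ext (hξx o)
    rw [e] at hφ
    obtain ⟨D, hD, hD'⟩ := M.snc (τ t) κ φ (ξ o) (M.xA _ _) hφ
    refine ⟨D, by rw [e]; exact hD, ?_⟩
    intro j hj hne' hφj
    rw [e] at hφj ⊢
    exact hD' (ξ j) (M.xA _ _) (fun h => hne' (hξ h)) hφj
  obtain ⟨M', hA', hx'⟩ := exists_model3 π hK hinv' M τ (fun i : {i : I // i ≠ i0} => i.1)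
    (fun t ht => ⟨⟨t, ht⟩, rfl⟩) t0 hAQ
    (fun t i => hinv _ (hAQ t (M.xA _ _)) (hx0 t i.1 i.2)) y hy hy0 claim3 hker hsm' hS
  refine ⟨{t : T // M.A t ≤ Q}, {i : I // i ≠ i0}, inferInstance, inferInstance, M', ?_, ?_⟩
  · intro t z
    obtain ⟨⟨q, hq⟩, rfl⟩ := hs z
    obtain ⟨a, ha, b, hb, hb0, hab⟩ := hdom (τ t) (hAQ t) q hq
    rw [hA']
    refine ⟨pq π a, pq_mem π (hAQ t) ha, pq π b, pq_mem π (hAQ t) hb, hb0, ?_⟩
    rw [← hab, pq_mul π hq (hAQ t hb), mul_assoc, mul_inv_cancel₀ hb0, mul_one, pq_of π hq]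
  · intro g hg hg0 hMg
    obtain ⟨n, hn, δ, hδ⟩ := hMg
    refine ⟨n, hn, fun i => δ i.1, ?_⟩
    intro t
    obtain ⟨w, h0, h1, h2, h3⟩ := hδ (τ t)
    rw [hA', hx']
    -- the exponent of the component vanishes
    have hwπ : pq π w ≠ 0 := pq_ne π h0 (hAQ t h1) (hAQ t h2)
    have hmem : ∀ i : I, i ≠ i0 → M.x (τ t) i ^ δ i ∈ Q := fun i hi =>
      zpow_mem_of (hAQ t (M.xA _ _)) (Or.inr (hinv _ (hAQ t (M.xA _ _)) (hx0 t i hi)))
    have hmem' : ∀ i : I, i ≠ i0 → (M.x (τ t) i ^ δ i)⁻¹ ∈ Q := fun i hi => by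
      rw [← zpow_neg]
      exact zpow_mem_of (hAQ t (M.xA _ _)) (Or.inr (hinv _ (hAQ t (M.xA _ _)) (hx0 t i hi)))
    have hP : ∏ i ∈ Finset.univ.erase i0, M.x (τ t) i ^ δ i ∈ Q :=
      Q.prod_mem fun i hi => hmem i (Finset.ne_of_mem_erase hi)
    have hP' : (∏ i ∈ Finset.univ.erase i0, M.x (τ t) i ^ δ i)⁻¹ ∈ Q := by
      rw [← Finset.prod_inv_distrib]
      exact Q.prod_mem fun i hi => hmem' i (Finset.ne_of_mem_erase hi)
    have hP0 : ∏ i ∈ Finset.univ.erase i0, M.x (τ t) i ^ δ i ≠ 0 :=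
      Finset.prod_ne_zero_iff.2 fun i _ => zpow_ne_zero _ (M.x0 _ _)
    have h3' : g ^ n = w * (M.x (τ t) i0 ^ δ i0 *
        ∏ i ∈ Finset.univ.erase i0, M.x (τ t) i ^ δ i) := by
      rw [h3, Finset.mul_prod_erase Finset.univ (fun i => M.x (τ t) i ^ δ i)
        (Finset.mem_univ i0)]
    have hg0' : g ≠ 0 := hne hg0
    have hginv : g⁻¹ ∈ Q := hinv g hg hg0
    have hxe : M.x (τ t) i0 ^ δ i0 = g ^ n * w⁻¹ *
        (∏ i ∈ Finset.univ.erase i0, M.x (τ t) i ^ δ i)⁻¹ := by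
      rw [h3']
      field_simp
    have hxe1 : M.x (τ t) i0 ^ δ i0 ∈ Q := by
      rw [hxe]
      exact Q.mul_mem (Q.mul_mem (Q.pow_mem hg n) (hAQ t h2)) hP'
    have hxe2 : (M.x (τ t) i0 ^ δ i0)⁻¹ ∈ Q := by
      rw [hxe, mul_inv, mul_inv, inv_inv, inv_inv, ← inv_pow]
      exact Q.mul_mem (Q.mul_mem (Q.pow_mem hginv n) (hAQ t h1)) hP
    have hxQ := hAQ t (M.xA (τ t) i0)
    have hδ0 : δ i0 = 0 := by
      by_contra hne0
      rcases lt_or_gt_of_ne hne0 with h | h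
      · obtain ⟨m, hm⟩ := Int.eq_ofNat_of_zero_le (show 0 ≤ -δ i0 by omega)
        have hm0 : m ≠ 0 := by omega
        have e1 : δ i0 = -(m : ℤ) := by omega
        rw [e1, zpow_neg, zpow_natCast, inv_inv] at hxe2
        rw [e1, zpow_neg, zpow_natCast] at hxe1
        have h4 := hunit _ hxe2 (pow_ne_zero _ (M.x0 _ _)) hxe1
        rw [pq_pow π hxQ, claim3 t, zero_pow hm0] at h4
        exact h4 rfl
      · obtain ⟨m, hm⟩ := Int.eq_ofNat_of_zero_le h.le
        have hm0 : m ≠ 0 := by omega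
        rw [hm, zpow_natCast] at hxe1 hxe2
        have h4 := hunit _ hxe1 (pow_ne_zero _ (M.x0 _ _)) hxe2
        rw [pq_pow π hxQ, claim3 t, zero_pow hm0] at h4
        exact h4 rfl
    rw [hδ0, zpow_zero, one_mul] at h3'
    refine ⟨pq π w, hwπ, pq_mem π (hAQ t) h1, ?_, ?_⟩
    · rw [← pq_inv π h0 (hAQ t h1) (hAQ t h2)]
      exact pq_mem π (hAQ t) h2
    · rw [← pq_pow π hg, h3', pq_mul π (hAQ t h1) hP,
        pq_prod π _ _ fun i hi => hmem i (Finset.ne_of_mem_erase hi)]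
      congr 1
      have e1 : ∀ i ∈ Finset.univ.erase i0, pq π (M.x (τ t) i ^ δ i) =
          pq π (M.x (τ t) i) ^ δ i := fun i hi =>
        pq_zpow π (M.x0 _ _) (hAQ t (M.xA _ _))
          (hinv _ (hAQ t (M.xA _ _)) (hx0 t i (Finset.ne_of_mem_erase hi))) _
      rw [Finset.prod_congr rfl e1]
      refine (Finset.prod_subtype (Finset.univ.erase i0) (by
        intro i
        simp) (fun i => pq π (M.x (τ t) i) ^ δ i))

end cut

section loc

variable {k R0 K : Type u} [Field k] [CommRing R0] [IsDomain R0] [WfDvdMonoid R0] [Algebra k R0]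
  [Field K] [Algebra k K]

/-- The local ring of a prime element, with the residue map. -/
theorem exists_locG (ev : R0 →ₐ[k] K) (htop : ∀ z : K, ∃ r s : R0, z = ev r / ev s)
    (f : R0) (hf : Irreducible f) (hker : ∀ g : R0, ev g = 0 ↔ f ∣ g)
    (K' : Type u) [Field K'] [Algebra R0 K'] [IsFractionRing R0 K'] [Algebra k K']
    [IsScalarTower k R0 K'] :
    ∃ (Q : Subalgebra k K') (π : Q →ₐ[k] K), Function.Surjective π ∧
      (∀ y : K', y ∈ Q ∨ y⁻¹ ∈ Q) ∧ (∀ b : K', b ∈ Q → pq π b ≠ 0 → b⁻¹ ∈ Q) ∧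
      (∀ g : R0, algebraMap _ K' g ∈ Q ∧ pq π (algebraMap _ K' g) = ev g) ∧
      (∀ q ∈ Q, pq π q = 0 → q / algebraMap _ K' f ∈ Q) ∧
      ∀ q ∈ Q, ∃ r s : R0, ev s ≠ 0 ∧ q * algebraMap _ K' s = algebraMap _ K' r := by
  classical
  obtain ⟨Q, π, hQ0, hπ⟩ := exists_Q (K' := K') ev
  have hgQ : ∀ g : R0, algebraMap R0 K' g ∈ Q := fun g => (hQ0 _).2 ⟨g, 1, by
    rw [map_one]; exact one_ne_zero, by rw [map_one, inv_one, mul_one]⟩
  have hπg : ∀ g : R0, pq π (algebraMap R0 K' g) = ev g := by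
    intro g
    rw [pq_of π (hgQ g)]
    exact hπ g (hgQ g)
  have hinj : Function.Injective (algebraMap R0 K') := IsFractionRing.injective R0 K'
  have hne : ∀ s : R0, s ≠ 0 → algebraMap R0 K' s ≠ 0 := fun s hs h =>
    hs (hinj (h.trans (map_zero _).symm))
  have hfrac : ∀ r s : R0, ev s ≠ 0 →
      algebraMap R0 K' r * (algebraMap R0 K' s)⁻¹ ∈ Q := fun r s hs =>
    (hQ0 _).2 ⟨r, s, hs, rfl⟩
  have hrep : ∀ q ∈ Q, ∃ r s : R0, ev s ≠ 0 ∧
      q = algebraMap R0 K' r * (algebraMap R0 K' s)⁻¹ := by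
    intro q hq
    obtain ⟨r, s, hs, rfl⟩ := (hQ0 q).1 hq
    exact ⟨r, s, hs, rfl⟩
  have hs0 : ∀ s : R0, ev s ≠ 0 → s ≠ 0 := by
    rintro s hs rfl
    exact hs (map_zero _)
  have hval : ∀ r s : R0, ev s ≠ 0 →
      pq π (algebraMap R0 K' r * (algebraMap R0 K' s)⁻¹) * ev s =
        ev r := by
    intro r s hs
    rw [← hπg s, ← pq_mul π (hfrac r s hs) (hgQ s), mul_assoc,
      inv_mul_cancel₀ (hne s (hs0 s hs)), mul_one, hπg]
  refine ⟨Q, π, ?_, ?_, ?_, fun g => ⟨hgQ g, hπg g⟩, ?_, ?_⟩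
  · intro z
    obtain ⟨r, s, rfl⟩ := htop z
    by_cases hs : ev s = 0
    · exact ⟨0, by rw [map_zero, hs, div_zero]⟩
    · refine ⟨⟨_, hfrac r s hs⟩, ?_⟩
      rw [← pq_of π (hfrac r s hs), eq_div_iff hs]
      exact hval r s hs
  · -- totality
    have key : ∀ (a b : R0), a ≠ 0 → b ≠ 0 →
        algebraMap R0 K' a * (algebraMap R0 K' b)⁻¹ ∈ Q ∨
        algebraMap R0 K' b * (algebraMap R0 K' a)⁻¹ ∈ Q := by
      intro a b ha hb
      obtain ⟨i, a', ha', rfl⟩ := WfDvdMonoid.max_power_factor ha hf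
      obtain ⟨j, b', hb', rfl⟩ := WfDvdMonoid.max_power_factor hb hf
      have hf0 := hne f hf.ne_zero
      have ha1 : ev a' ≠ 0 := fun h => ha' ((hker _).1 h)
      have hb1 : ev b' ≠ 0 := fun h => hb' ((hker _).1 h)
      have ha2 := hne a' (hs0 _ ha1)
      have hb2 := hne b' (hs0 _ hb1)
      rcases le_total j i with h | h
      · left
        have e : algebraMap R0 K' (f ^ i * a') * (algebraMap R0 K' (f ^ j * b'))⁻¹ =
            algebraMap R0 K' (f ^ (i - j) * a') * (algebraMap R0 K' b')⁻¹ := by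
          rw [map_mul, map_mul, map_mul, map_pow, map_pow, map_pow, mul_inv]
          have : algebraMap R0 K' f ^ i = algebraMap R0 K' f ^ (i - j) * algebraMap R0 K' f ^ j := by
            rw [← pow_add, Nat.sub_add_cancel h]
          rw [this]
          field_simp
        rw [e]
        exact hfrac _ _ hb1
      · right
        have e : algebraMap R0 K' (f ^ j * b') * (algebraMap R0 K' (f ^ i * a'))⁻¹ =
            algebraMap R0 K' (f ^ (j - i) * b') * (algebraMap R0 K' a')⁻¹ := by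
          rw [map_mul, map_mul, map_mul, map_pow, map_pow, map_pow, mul_inv]
          have : algebraMap R0 K' f ^ j = algebraMap R0 K' f ^ (j - i) * algebraMap R0 K' f ^ i := by
            rw [← pow_add, Nat.sub_add_cancel h]
          rw [this]
          field_simp
        rw [e]
        exact hfrac _ _ ha1
    intro y
    by_cases hy : y = 0
    · left
      rw [hy]
      exact Q.zero_mem
    obtain ⟨a, b, hb, hab⟩ := IsFractionRing.div_surjective R0 y
    have hb0 := nonZeroDivisors.ne_zero hb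
    have ha0 : a ≠ 0 := by
      rintro rfl
      apply hy
      rw [← hab, map_zero, zero_div]
    rcases key a b ha0 hb0 with h | h
    · left
      rw [← hab, div_eq_mul_inv]
      exact h
    · right
      rw [← hab, inv_div, div_eq_mul_inv]
      exact h
  · intro b hb hb0
    obtain ⟨r, s, hs, rfl⟩ := hrep b hb
    have h1 := hval r s hs
    have hr : ev r ≠ 0 := by
      rw [← h1]
      exact mul_ne_zero hb0 hs
    have e : (algebraMap R0 K' r * (algebraMap R0 K' s)⁻¹)⁻¹ =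
        algebraMap R0 K' s * (algebraMap R0 K' r)⁻¹ := by
      rw [mul_inv, inv_inv, mul_comm]
    rw [e]
    exact hfrac _ _ hr
  · intro q hq hq0
    obtain ⟨r, s, hs, rfl⟩ := hrep q hq
    have h1 := hval r s hs
    rw [hq0, zero_mul] at h1
    obtain ⟨r', rfl⟩ := (hker r).1 h1.symm
    have e : algebraMap R0 K' (f * r') * (algebraMap R0 K' s)⁻¹ / algebraMap R0 K' f =
        algebraMap R0 K' r' * (algebraMap R0 K' s)⁻¹ := by
      have := hne f hf.ne_zero
      rw [map_mul]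
      field_simp
    rw [e]
    exact hfrac _ _ hs
  · intro q hq
    obtain ⟨r, s, hs, rfl⟩ := hrep q hq
    refine ⟨r, s, hs, ?_⟩
    rw [mul_assoc, inv_mul_cancel₀ (hne s (hs0 s hs)), mul_one]

end loc

end Pool.Agent.N762.RC
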