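import Pool.Agent.N762.RC.Main
import Pool.Agent.N98.Abs

/-!
The equations of bounded degree of the coordinates of a variety of bounded degree.
-/

set_option autoImplicit false
set_option linter.unusedVariables false
set_option linter.unusedSimpArgs false
set_option linter.unusedSectionVars false

universe u

open MvPolynomial Pool.Agent.W558 Pool.Agent.W418.LCI Pool.Agent.N98

namespace Pool.Agent.N762.RC

section basic

variable {k K : Type u} [Field k] [Field K] [Algebra k K]

lemma alg_of_top {τ : Type*} (x : τ → K) (htop : IntermediateField.adjoin k (Set.range x) = ⊤) :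
    Algebra.IsAlgebraic (Algebra.adjoin k (Set.range x)) K := by
  refine ⟨fun z => ?_⟩
  obtain ⟨a, ha, b, hb, hb0, rfl⟩ := frac_of_top htop z
  refine ⟨Polynomial.C ⟨b, hb⟩ * Polynomial.X - Polynomial.C ⟨a, ha⟩, ?_, ?_⟩
  · intro h0
    have h1 := congrArg (fun P => Polynomial.coeff P 1) h0
    simp only [Polynomial.coeff_sub, Polynomial.coeff_C_mul, Polynomial.coeff_X_one, mul_one,
      Polynomial.coeff_zero] at h1
    rw [Polynomial.coeff_C, if_neg one_ne_zero, sub_zero] at h1
    exact hb0 (congrArg Subtype.val h1)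
  · rw [map_sub, map_mul, Polynomial.aeval_C, Polynomial.aeval_X, Polynomial.aeval_C]
    change b * (a * b⁻¹) - a = 0
    field_simp
    ring

lemma ind_pow {ι : Type*} {x : ι → K} (hx : AlgebraicIndependent k x) (q : ι → ℕ)
    (hq : ∀ i, q i ≠ 0) : AlgebraicIndependent k (fun i => x i ^ q i) := by
  have h := hx.polynomial_aeval_of_transcendental (f := fun i => (Polynomial.X : Polynomial k) ^ q i)
    (fun i => (Polynomial.transcendental_X k).pow (Nat.pos_of_ne_zero (hq i)))
  simpa using h

/-- The values of polynomials at coordinates chosen among given ones. -/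
lemma img_le_of_comp {τ τ' : Type} (W : τ → K) (r : τ' → τ) (t : ℕ) :
    img k (W ∘ r) t ≤ img k W t := by
  intro z hz
  unfold img at hz ⊢
  rw [Submodule.mem_map] at hz ⊢
  obtain ⟨g, hg, rfl⟩ := hz
  refine ⟨rename r g, ?_, ?_⟩
  · rw [mem_restrictTotalDegree] at hg ⊢
    exact (totalDegree_rename_le r g).trans hg
  · change aeval W (rename r g) = aeval (W ∘ r) g
    rw [aeval_rename]

lemma degreeOf_zero_iff' {σ : Type} (i : σ) (f : MvPolynomial σ k) :
    degreeOf i f = 0 ↔ ∀ m ∈ f.support, m i = 0 := by
  rw [← Nat.le_zero, degreeOf_eq_sup, Finset.sup_le_iff]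
  simp only [Nat.le_zero]

/-- A divisor of a polynomial which only involves certain variables. -/
lemma exists_rename_of_dvd {σ τ : Type} (κ : τ → σ) (hκ : Function.Injective κ)
    {F : MvPolynomial σ k} {g : MvPolynomial τ k} (hg : g ≠ 0) (h : F ∣ rename κ g) :
    ∃ F0 : MvPolynomial τ k, rename κ F0 = F := by
  classical
  apply exists_rename_eq_of_vars_subset_range F κ hκ
  obtain ⟨H, hH⟩ := h
  have hg' : rename κ g ≠ 0 := fun h => hg (rename_injective κ hκ (h.trans (map_zero _).symm))
  have hF0 : F ≠ 0 := by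
    rintro rfl
    rw [zero_mul] at hH
    exact hg' hH
  have hH0 : H ≠ 0 := by
    rintro rfl
    rw [mul_zero] at hH
    exact hg' hH
  intro i hi
  by_contra hcon
  have h1 : degreeOf i (rename κ g) = 0 := by
    rw [degreeOf_zero_iff']
    intro m hm
    by_contra hne
    apply hcon
    have h2 : i ∈ (rename κ g).vars := by
      rw [mem_vars_iff_mem_support]
      exact ⟨m, hm, Finsupp.mem_support_iff.2 hne⟩
    have h3 := vars_rename κ g h2
    obtain ⟨j, -, hj⟩ := Finset.mem_image.1 h3
    exact ⟨j, hj⟩
  rw [hH, degreeOf_mul_eq hF0 hH0] at h1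
  have h2 : degreeOf i F = 0 := by omega
  rw [degreeOf_zero_iff'] at h2
  rw [Finset.mem_coe, mem_vars_iff_mem_support] at hi
  obtain ⟨m, hm, hmi⟩ := hi
  exact (Finsupp.mem_support_iff.1 hmi) (h2 m hm)

lemma totalDegree_rename_inj {σ τ : Type} (κ : τ → σ) (hκ : Function.Injective κ)
    (g : MvPolynomial τ k) : (rename κ g).totalDegree = g.totalDegree := by
  classical
  refine le_antisymm (totalDegree_rename_le κ g) ?_
  unfold totalDegree
  refine Finset.sup_le fun m hm => ?_
  have h1 : Finsupp.mapDomain κ m ∈ (rename κ g).support := by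
    rw [mem_support_iff, coeff_rename_mapDomain κ hκ]
    exact mem_support_iff.1 hm
  have h2 := Finset.le_sup (f := fun s : σ →₀ ℕ => s.sum fun _ e => e) h1
  refine le_trans ?_ h2
  rw [Finsupp.sum_mapDomain_index_inj hκ]

end basic

end Pool.Agent.N762.RC
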