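import Pool.Agent.N762.RC.Deg

/-!
The equations of bounded degree of the coordinates of a variety of bounded degree.
-/

set_option autoImplicit false
set_option linter.unusedVariables false
set_option linter.unusedSimpArgs false
set_option linter.unusedSectionVars false

universe u

open MvPolynomial Pool.Agent.W558 Pool.Agent.W418.LCI Pool.Agent.N98

namespace Pool.Agent.N762.RC

section root

variable (p : ℕ) [Fact p.Prime] {k K : Type u} [Field k] [CharP k p] [Field K] [Algebra k K]
  {n : ℕ}

lemma exists_root [PerfectField k] (e : ℕ) : ∃ ρ : k →+* k, ∀ a, (ρ a) ^ p ^ e = a := by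
  have : ExpChar k p := ExpChar.prime Fact.out
  have := PerfectField.toPerfectRing (K := k) p
  refine ⟨(iterateFrobeniusEquiv k p e).symm, fun a => ?_⟩
  rw [← iterateFrobeniusEquiv_def]
  exact (iterateFrobeniusEquiv k p e).apply_symm_apply a

lemma ev_root (ρ : k →+* k) {e : ℕ} (hρ : ∀ a, (ρ a) ^ p ^ e = a) (x : Fin n → K)
    (ε : Fin n → ℕ) (Q : MvPolynomial (Fin n) k) :
    ev p x e ε (MvPolynomial.map ρ Q) = aeval (fun i => x i ^ p ^ ε i) Q := by
  have h : (ev p x e ε).comp (MvPolynomial.map ρ) =
      ((aeval (fun i => x i ^ p ^ ε i) : MvPolynomial (Fin n) k →ₐ[k] K) :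
        MvPolynomial (Fin n) k →+* K) := by
    apply MvPolynomial.ringHom_ext
    · intro a
      rw [RingHom.comp_apply, MvPolynomial.map_C, ev_C, hρ, RingHom.coe_coe, aeval_C]
    · intro i
      rw [RingHom.comp_apply, MvPolynomial.map_X, ev_X, RingHom.coe_coe, aeval_X]
  exact congrArg (fun f : MvPolynomial (Fin n) k →+* K => f Q) h

end root

section ext

variable {k K : Type u} [Field k] [Field K] [Algebra k K]

/-- A transcendence basis among given generators. -/
lemma exists_tb {τ : Type} [Finite τ] (x : τ → K)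
    (htop : IntermediateField.adjoin k (Set.range x) = ⊤) :
    ∃ (m : ℕ) (a : Fin m → K) (i : Fin m → τ), IsTranscendenceBasis k a ∧ ∀ c, a c = x (i c) := by
  classical
  have halg := alg_of_top x htop
  obtain ⟨s, hs, hb⟩ := exists_isTranscendenceBasis_subset (R := k) (Set.range x)
  have hsf : s.Finite := (Set.finite_range x).subset hs
  have := hsf.fintype
  let e : Fin (Fintype.card s) ≃ s := (Fintype.equivFin s).symm
  have h1 : ∀ c, ∃ j, x j = (e c : K) := fun c => hs (e c).2
  choose i hi using h1
  refine ⟨Fintype.card s, fun c => (e c : K), i, ?_, fun c => (hi c).symm⟩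
  exact (isTranscendenceBasis_equiv e).2 hb

/-- A transcendence basis among given generators which extends a given family. -/
lemma exists_tb_ext {τ : Type} [Finite τ] (x : τ → K)
    (htop : IntermediateField.adjoin k (Set.range x) = ⊤) {m : ℕ} (a : Fin m → K)
    (ha : AlgebraicIndependent k a) (i : Fin m → τ) (hi : ∀ c, a c = x (i c)) :
    ∃ (d : ℕ) (v : Fin d → K) (κ : Fin m → Fin d) (j : Fin d → τ), IsTranscendenceBasis k v ∧
      Function.Injective κ ∧ (∀ c, v (κ c) = a c) ∧ (∀ b, v b = x (j b)) ∧
      ∀ c, j (κ c) = i c := by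
  classical
  have halg := alg_of_top x htop
  have hsub : Set.range a ⊆ Set.range x := by
    rintro _ ⟨c, rfl⟩
    exact ⟨i c, (hi c).symm⟩
  obtain ⟨s, hs1, hs, hb⟩ := exists_isTranscendenceBasis_between (R := k) (Set.range a)
    (Set.range x) hsub ha.to_subtype_range
  have hsf : s.Finite := (Set.finite_range x).subset hs
  have := hsf.fintype
  let e : Fin (Fintype.card s) ≃ s := (Fintype.equivFin s).symm
  have h1 : ∀ c, ∃ j, x j = (e c : K) := fun c => hs (e c).2
  choose j0 hj0 using h1
  let κ : Fin m → Fin (Fintype.card s) := fun c => e.symm ⟨a c, hs1 ⟨c, rfl⟩⟩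
  have hκ : Function.Injective κ := by
    intro c c' h
    have h2 := e.symm.injective h
    exact ha.injective (congrArg Subtype.val h2)
  have hv : ∀ c, ((e (κ c) : s) : K) = a c := by
    intro c
    change ((e (e.symm ⟨a c, _⟩) : s) : K) = a c
    rw [e.apply_symm_apply]
  refine ⟨Fintype.card s, fun c => (e c : K), κ,
    fun b => if h : ∃ c, κ c = b then i h.choose else j0 b, ?_, hκ, hv, ?_, ?_⟩
  · exact (isTranscendenceBasis_equiv e).2 hb
  · intro b
    by_cases h : ∃ c, κ c = b
    · dsimp only
      rw [dif_pos h, ← hi]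
      conv_lhs => rw [← h.choose_spec]
      exact hv _
    · dsimp only
      rw [dif_neg h]
      exact (hj0 b).symm
  · intro c
    have h : ∃ c', κ c' = κ c := ⟨c, rfl⟩
    dsimp only
    rw [dif_pos h, hκ h.choose_spec]

end ext

end Pool.Agent.N762.RC
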