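import Pool.Agent.N762.RC.Deg2

/-!
The equations of bounded degree of the coordinates of a variety of bounded degree.
-/

set_option autoImplicit false
set_option linter.unusedVariables false
set_option linter.unusedSimpArgs false
set_option linter.unusedSectionVars false

universe u

open MvPolynomial Pool.Agent.W558 Pool.Agent.W418.LCI Pool.Agent.N98

namespace Pool.Agent.N762.RC

section map

variable (p : ℕ) [Fact p.Prime] {k K : Type u} [Field k] [CharP k p] [Field K] [Algebra k K]
  {n m : ℕ}

/-- The renaming of the variables. -/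
def rr (i : Fin m → Fin n) : Option (Fin m) → Fin (n + 1) := fun o => o.elim 0 fun c => (i c).succ

lemma map_fse (ρ : k →+* k) {e : ℕ} (hρ : ∀ a, (ρ a) ^ p ^ e = a) (x : Fin n → K)
    (ε : Fin n → ℕ) (i : Fin m → Fin n) (F : MvPolynomial (Option (Fin m)) k) :
    ((finSuccEquiv k n) (MvPolynomial.map ρ (rename (rr i) F))).map (ev p x e ε) =
      (optionEquivLeft k (Fin m) F).map
        ((aeval (fun c => x (i c) ^ p ^ ε (i c)) : MvPolynomial (Fin m) k →ₐ[k] K) :
          MvPolynomial (Fin m) k →+* K) := by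
  have h : ((Polynomial.mapRingHom (ev p x e ε)).comp
      ((finSuccEquiv k n) : MvPolynomial (Fin (n + 1)) k →+* Polynomial (MvPolynomial (Fin n) k))).comp
      ((MvPolynomial.map ρ).comp ((rename (rr i) : MvPolynomial (Option (Fin m)) k →ₐ[k] _) :
        MvPolynomial (Option (Fin m)) k →+* MvPolynomial (Fin (n + 1)) k)) =
      (Polynomial.mapRingHom ((aeval (fun c => x (i c) ^ p ^ ε (i c)) :
        MvPolynomial (Fin m) k →ₐ[k] K) : MvPolynomial (Fin m) k →+* K)).comp
        ((optionEquivLeft k (Fin m)) : MvPolynomial (Option (Fin m)) k →+*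
          Polynomial (MvPolynomial (Fin m) k)) := by
    apply MvPolynomial.ringHom_ext
    · intro a
      have h1 : ∀ b : k, finSuccEquiv k n (C b) = Polynomial.C (C b) := fun b =>
        (finSuccEquiv k n).commutes b
      have h2 : optionEquivLeft k (Fin m) (C a) = Polynomial.C (C a) :=
        (optionEquivLeft k (Fin m)).commutes a
      simp only [RingHom.comp_apply, RingHom.coe_coe]
      rw [rename_C, MvPolynomial.map_C, h1, h2, Polynomial.coe_mapRingHom,
        Polynomial.coe_mapRingHom, Polynomial.map_C, Polynomial.map_C, ev_C, hρ, RingHom.coe_coe,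
        aeval_C]
    · intro o
      simp only [RingHom.comp_apply, RingHom.coe_coe]
      rw [rename_X, MvPolynomial.map_X]
      rcases o with _ | c
      · change Polynomial.mapRingHom (ev p x e ε) (finSuccEquiv k n (X 0)) = _
        rw [finSuccEquiv_X_zero, optionEquivLeft_X_none, Polynomial.coe_mapRingHom,
          Polynomial.coe_mapRingHom, Polynomial.map_X, Polynomial.map_X]
      · change Polynomial.mapRingHom (ev p x e ε) (finSuccEquiv k n (X (i c).succ)) = _
        rw [finSuccEquiv_X_succ, optionEquivLeft_X_some, Polynomial.coe_mapRingHom,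
          Polynomial.coe_mapRingHom, Polynomial.map_C, Polynomial.map_C, ev_X, RingHom.coe_coe,
          aeval_X]
  exact congrArg (fun f : MvPolynomial (Option (Fin m)) k →+* Polynomial K => f F) h

end map

section one

variable (p : ℕ) [Fact p.Prime] {k : Type u} [Field k] [CharP k p]

/-- The relation of one coordinate. -/
theorem rel_one [PerfectField k] {Ω : Type u} [Field Ω] [Algebra k Ω] {N : ℕ} (X' : Fin N → Ω)
    (εN : Fin N → ℕ) (htopΩ : IntermediateField.adjoin k (Set.range X') = ⊤) (d δ C0 : ℕ)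
    (htr : Algebra.trdeg k Ω = d)
    (hδ : ∀ t : ℕ, d.factorial * Module.finrank k (img k (fun j => X' j ^ p ^ εN j) t) ≤
      δ * (t + C0) ^ d) (e n : ℕ) (K : Type u) [Field K] [Algebra k K] (x : Fin (n + 1) → K)
    (ε : Fin (n + 1) → ℕ) (ι : K →ₐ[k] Ω) (hι : ∀ i, ∃ j, ι (x i) = X' j ∧ ε i = εN j)
    (htop : IntermediateField.adjoin k (Set.range x) = ⊤)
    (halg : IsAlgebraic (LF (E := k) x) (x 0)) :
    ∃ G : Polynomial (MvPolynomial (Fin n) k), TD δ G ∧
      G.map (ev p (tl k x) e (ε ∘ Fin.succ)) ≠ 0 ∧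
      G.eval₂ ((algebraMap (LF (E := k) x) K).comp (ev p (tl k x) e (ε ∘ Fin.succ)))
        (x 0 ^ p ^ ε 0) = 0 := by
  classical
  have hp0 : p ≠ 0 := (Fact.out : p.Prime).ne_zero
  let L := LF (E := k) x
  choose j hj hjε using hι
  -- a transcendence basis of `L`
  obtain ⟨m, a, i, hab, hai⟩ := exists_tb (k := k) (tl k x) (tl_top x)
  let θ : L →ₐ[k] Ω := ι.comp L.val
  have hθ : ∀ c, θ (a c) = X' (j (i c).succ) := by
    intro c
    rw [← hj, hai]
    rfl
  have hθa : AlgebraicIndependent k (fun c => θ (a c)) := hab.1.map' θ.injective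
  obtain ⟨d', v, κ, jv, hvb, hκ, hvκ, hvj, hjκ⟩ := exists_tb_ext (k := k) X' htopΩ
    (fun c => θ (a c)) hθa (fun c => j (i c).succ) hθ
  have hd' : d' = d := by
    have h1 := hvb.lift_cardinalMk_eq_trdeg
    rw [htr, Cardinal.mk_fin, Cardinal.lift_natCast, Cardinal.lift_natCast, Nat.cast_inj] at h1
    exact h1
  subst hd'
  -- the powers
  let W : Fin N → Ω := fun j => X' j ^ p ^ εN j
  let r0 : Option (Fin d') → Fin N := fun o => o.elim (j 0) jv
  have hyind : AlgebraicIndependent k (fun b => (W ∘ r0) (some b)) := by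
    have h1 := ind_pow hvb.1 (fun b => p ^ εN (jv b)) (fun b => pow_ne_zero _ hp0)
    have h2 : (fun b => (W ∘ r0) (some b)) = fun b => v b ^ p ^ εN (jv b) := by
      funext b
      change X' (jv b) ^ p ^ εN (jv b) = v b ^ p ^ εN (jv b)
      rw [hvj]
    rw [h2]
    exact h1
  have hgr : ∀ t : ℕ, d'.factorial * Module.finrank k (img k (W ∘ r0) t) ≤ δ * (t + C0) ^ d' := by
    intro t
    refine le_trans (Nat.mul_le_mul_left _ ?_) (hδ t)
    have hfin : FiniteDimensional k (img k W t) := by
      unfold img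
      infer_instance
    exact Submodule.finrank_mono (img_le_of_comp W r0 t)
  have hcard : Fintype.card (Option (Fin d')) = d' + 1 := by
    rw [Fintype.card_option, Fintype.card_fin]
  obtain ⟨g0, hg0, hg0'⟩ := exists_rel_of_growth d' hcard (W ∘ r0) δ C0 hgr
  obtain ⟨F, hF, hker⟩ := exists_gen_option (W ∘ r0) hyind g0 hg0 hg0'
  have hFδ : F.totalDegree ≤ δ := totalDegree_le_of_growth d' hcard (W ∘ r0) δ C0 hgr F hF.ne_zero
    (fun g hg => (hker g).1 hg)
  -- the dependency over the smaller set of variables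
  let fam : Option (Fin m) → K := fun o => o.elim (x 0 ^ p ^ ε 0)
    (fun c => (x (i c).succ) ^ p ^ ε (i c).succ)
  have hfam : ∀ o, ι (fam o) = (W ∘ r0) (Option.map κ o) := by
    intro o
    rcases o with _ | c
    · change ι (x 0 ^ p ^ ε 0) = X' (j 0) ^ p ^ εN (j 0)
      rw [map_pow, hj, hjε]
    · change ι ((x (i c).succ) ^ p ^ ε (i c).succ) = X' (jv (κ c)) ^ p ^ εN (jv (κ c))
      rw [map_pow, hj, hjε, hjκ]
  have hfam' : ∀ g : MvPolynomial (Option (Fin m)) k,
      ι (aeval fam g) = aeval (W ∘ r0) (rename (Option.map κ) g) := by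
    intro g
    rw [aeval_rename]
    have h1 : ι (aeval fam g) = aeval (fun o => ι (fam o)) g := by
      have := congrArg (fun f : MvPolynomial (Option (Fin m)) k →ₐ[k] Ω => f g)
        (comp_aeval (R := k) fam ι)
      exact this
    rw [h1]
    congr 2
    funext o
    exact hfam o
  have hdep : ∃ g : MvPolynomial (Option (Fin m)) k, g ≠ 0 ∧ aeval fam g = 0 := by
    by_contra hcon
    push Not at hcon
    have hind : AlgebraicIndependent k fam := by
      rw [algebraicIndependent_iff]
      intro g hg
      by_contra h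
      exact hcon g h hg
    have hKL : Algebra.IsAlgebraic L K := by
      have h1 : Algebra.IsAlgebraic L (IntermediateField.adjoin L {x 0}) :=
        IntermediateField.isAlgebraic_adjoin_simple halg.isIntegral
      refine ⟨fun y => ?_⟩
      have hy : y ∈ IntermediateField.adjoin L {x 0} := by
        rw [hd_top htop]
        trivial
      exact (h1.isAlgebraic ⟨y, hy⟩).algHom (IntermediateField.val _)
    have h1 := hind.lift_cardinalMk_le_trdeg
    have h2 : Algebra.trdeg k L + Algebra.trdeg L K = Algebra.trdeg k K := trdeg_add_eq k L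
    have h3 : Algebra.trdeg L K = 0 := trdeg_eq_zero
    have h4 := hab.lift_cardinalMk_eq_trdeg
    rw [Cardinal.mk_fin, Cardinal.lift_natCast, Cardinal.lift_uzero] at h4
    rw [← h2, h3, add_zero, ← h4, Cardinal.mk_fintype, Fintype.card_option, Fintype.card_fin,
      Cardinal.lift_natCast, Cardinal.lift_natCast, Nat.cast_le] at h1
    omega
  obtain ⟨g, hg, hg'⟩ := hdep
  have hdvd : F ∣ rename (Option.map κ) g := by
    rw [← hker, ← hfam', hg', map_zero]
  obtain ⟨F0, hF0⟩ := exists_rename_of_dvd (Option.map κ) (Option.map_injective hκ) hg hdvd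
  have hF0' : F0 ≠ 0 := by
    rintro rfl
    rw [map_zero] at hF0
    exact hF.ne_zero hF0.symm
  have hF0δ : F0.totalDegree ≤ δ := by
    rw [← totalDegree_rename_inj (Option.map κ) (Option.map_injective hκ) F0, hF0]
    exact hFδ
  have hF0z : aeval fam F0 = 0 := by
    have h1 : ι (aeval fam F0) = ι 0 := ?_
    · exact ι.injective h1
    rw [hfam', hF0, map_zero]
    exact (hker F).2 dvd_rfl
  obtain ⟨ρ, hρ⟩ := exists_root p (k := k) e
  let Q : MvPolynomial (Fin (n + 1)) k := MvPolynomial.map ρ (rename (rr i) F0)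
  have hQ : Q.totalDegree ≤ δ := by
    refine le_trans ?_ ((totalDegree_rename_le (rr i) F0).trans hF0δ)
    exact Finset.sup_mono (support_map_subset _ _)
  refine ⟨finSuccEquiv k n Q, ?_, ?_, ?_⟩
  · intro i hi
    exact (totalDegree_coeff_finSuccEquiv_add_le Q i hi).trans hQ
  · rw [map_fse p ρ hρ (tl k x) (ε ∘ Fin.succ) i F0]
    have hinj : Function.Injective ((aeval (fun c => tl k x (i c) ^ p ^ (ε ∘ Fin.succ) (i c)) :
        MvPolynomial (Fin m) k →ₐ[k] L) : MvPolynomial (Fin m) k →+* L) := by
      have h1 := ind_pow hab.1 (fun c => p ^ ε (i c).succ) (fun c => pow_ne_zero _ hp0)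
      have h2 : (fun c => tl k x (i c) ^ p ^ (ε ∘ Fin.succ) (i c)) =
          fun c => a c ^ p ^ ε (i c).succ := by
        funext c
        rw [hai]
        rfl
      rw [h2]
      exact h1
    intro h0
    apply hF0'
    apply (optionEquivLeft k (Fin m)).injective
    apply Polynomial.map_injective _ hinj
    rw [h0, map_zero, Polynomial.map_zero]
  · rw [ev_fse, ev_root p ρ hρ, aeval_rename]
    have h1 : (fun i => x i ^ p ^ ε i) ∘ rr i = fam := by
      funext o
      rcases o with _ | c <;> rfl
    rw [h1]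
    exact hF0z

end one

end Pool.Agent.N762.RC
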