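import Pool.Agent.N762.RC.Tw1

/-!
Families of polynomials in one variable over a field with models, where the coefficients are
values of polynomials of bounded degree, and the restriction to a zero of a member of the family.
-/

set_option autoImplicit false
set_option linter.unusedVariables false
set_option linter.unusedSimpArgs false
set_option linter.unusedSectionVars false

universe u

open Polynomial Pool.Agent.W558 Pool.Agent.W498.Tor Pool.Agent.W418.LCI Pool.Agent.N98
  Pool.Agent.W973.CUT Pool.Agent.W973.CUT2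

namespace Pool.Agent.N762.RC

section fam

variable {k E L : Type u} [Field k] [Field E] [Field L] [Algebra k L] {n : ℕ}

/-- The field `L` has models on which the values of polynomials of degree at most `D` and given
constants are boundary functions. -/
def Mdl (k : Type u) {E L : Type u} [Field k] [Field E] [Field L] [Algebra k L] {n : ℕ}
    (φ : MvPolynomial (Fin n) E →+* L) (D : ℕ) {C : Type} (c : C → L) : Prop :=
  ∀ (B : Type) [Finite B] (P : B → MvPolynomial (Fin n) E), (∀ b, φ (P b) ≠ 0) →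
    (∀ b, (P b).totalDegree ≤ D) →
    ∃ (T I : Type) (_ : Finite T) (_ : Fintype I) (M : LM (⊥ : Subalgebra k L) ⊤ T I),
      Frc M ∧ (∀ b, IsBr M (φ (P b))) ∧ ∀ i, IsBr M (c i)

/-- **Families over the projective line.** -/
theorem fam (φ : MvPolynomial (Fin n) E →+* L) (D : ℕ) {C : Type} [Finite C] (c : C → L)
    (hM : Mdl k φ (D ^ 2) c) (hDf : ((Nat.factorial D : ℕ) : k) ≠ 0) {O : Type} [Finite O]
    (Gr : O → (MvPolynomial (Fin n) E)[X]) (hT : ∀ o, TD D (Gr o))
    (h0 : ∀ o, (Gr o).map φ ≠ 0) {K : Type u} [Field K] [Algebra k K] [Algebra L K]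
    [IsScalarTower k L K] (z : K) (hz : Transcendental L z)
    (htop : IntermediateField.adjoin L {z} = ⊤) (hD1 : 1 ≤ D) :
    ∃ (T I : Type) (_ : Finite T) (_ : Fintype I) (M : LM (⊥ : Subalgebra k K) ⊤ T I),
      Frc M ∧ (∀ o, IsBr M (aeval z ((Gr o).map φ))) ∧ (∀ i, IsBr M (algebraMap L K (c i))) ∧
      ∀ t, (z ∈ M.A t ∨ z⁻¹ ∈ M.A t) ∧ ∀ l : L, ∃ a b : L, algebraMap L K a ∈ M.A t ∧
        algebraMap L K b ∈ M.A t ∧ b ≠ 0 ∧ l = a * b⁻¹ := by
  classical
  let R0 := MvPolynomial (Fin n) E
  let F0 : O → L[X] := fun o => (Gr o).map φ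
  have hF0d : ∀ o, (F0 o).natDegree ≤ D := fun o => natDegree_map_le.trans (hT o).natDegree
  let BB : Type := Bool ⊕ (O × Fin (D + 1))
  let G : BB → R0[X] := Sum.elim (fun e => if e then X else 1)
    (fun q => derivative^[min q.2.val (F0 q.1).natDegree] (Gr q.1))
  have hGX : G (Sum.inl true) = X := rfl
  have hG1 : G (Sum.inl false) = 1 := rfl
  have hGb : ∀ b (j : Fin (D + 1)), G (Sum.inr (b, j)) =
    derivative^[min j.val (F0 b).natDegree] (Gr b) := fun _ _ => rfl
  let F : BB → L[X] := fun β => (G β).map φ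
  have hFX : F (Sum.inl true) = X := by
    change (G (Sum.inl true)).map φ = X
    rw [hGX, Polynomial.map_X]
  have hF1 : F (Sum.inl false) = 1 := by
    change (G (Sum.inl false)).map φ = 1
    rw [hG1, Polynomial.map_one]
  have hFb : ∀ b (j : Fin (D + 1)), F (Sum.inr (b, j)) =
      derivative^[min j.val (F0 b).natDegree] (F0 b) := by
    intro b j
    change (G (Sum.inr (b, j))).map φ = _
    rw [hGb, ← iterate_derivative_map]
  have hFne : ∀ β, F β ≠ 0 := by
    rintro ((_ | _) | ⟨b, j⟩)
    · rw [hF1]; exact one_ne_zero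
    · rw [hFX]; exact X_ne_zero
    · rw [hFb]
      exact iter_ne hDf (h0 b) (hF0d b) _ (min_le_right _ _)
  have hGT : ∀ β, TD D (G β) := by
    rintro ((_ | _) | ⟨b, j⟩)
    · rw [hG1]
      intro i hi
      rw [coeff_one] at hi ⊢
      split_ifs at hi ⊢ with h
      · rw [MvPolynomial.totalDegree_one]
        omega
      · exact absurd rfl hi
    · rw [hGX]
      intro i hi
      rw [coeff_X] at hi ⊢
      split_ifs at hi ⊢ with h
      · rw [MvPolynomial.totalDegree_one]
        omega
      · exact absurd rfl hi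
    · rw [hGb]
      exact (hT b).iter _
  have hFd : ∀ β, (F β).natDegree ≤ D := fun β => natDegree_map_le.trans (hGT β).natDegree
  -- the truncations
  let Gt : BB → R0[X] := fun β => trn (F β).natDegree (G β)
  have hGtm : ∀ β, (Gt β).map φ = F β := fun β => map_trn φ (G β)
  have hGtn : ∀ β, (Gt β).natDegree = (F β).natDegree := fun β => natDegree_trn φ (G β)
  have hGtT : ∀ β, TD D (Gt β) := fun β => TD.trn (hGT β) _
  have hchi : ∀ β β', (chi (Gt β) (Gt β')).map φ = chi (F β) (F β') := by
    intro β β'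
    rw [chi_map φ (Gt β) (Gt β') (by rw [hGtm, hGtn]) (by rw [hGtm, hGtn]), hGtm, hGtm]
  -- the family over the base
  let CC : Type := BB ⊕ (BB × BB × Fin (D + 1))
  let H0 : CC → R0 := Sum.elim (fun β => (Gt β).coeff 0)
    (fun q => (chi (Gt q.1) (Gt q.2.1)).coeff q.2.2)
  let H : CC → R0 := fun c => if φ (H0 c) ≠ 0 then H0 c else 1
  have hH1 : ∀ c, φ (H0 c) ≠ 0 → H c = H0 c := fun c hc => if_pos hc
  have hHne : ∀ c, φ (H c) ≠ 0 := by
    intro c
    by_cases h : φ (H0 c) ≠ 0
    · rw [hH1 c h]; exact h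
    · have : H c = 1 := if_neg h
      rw [this, map_one]; exact one_ne_zero
  have hHT : ∀ c, (H c).totalDegree ≤ D ^ 2 := by
    intro c
    by_cases h : φ (H0 c) ≠ 0
    · rw [hH1 c h]
      have h' : H0 c ≠ 0 := by
        intro h'
        rw [h', map_zero] at h
        exact h rfl
      rcases c with β | ⟨β, β', j⟩
      · have h1 := hGtT β 0 h'
        have h2 : D ≤ D ^ 2 := Nat.le_self_pow (by norm_num) D
        change ((Gt β).coeff 0).totalDegree ≤ D ^ 2
        omega
      · exact totalDegree_chi (hGtT β) (hGtT β') _ h'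
    · have : H c = 1 := if_neg h
      rw [this, MvPolynomial.totalDegree_one]
      exact Nat.zero_le _
  obtain ⟨T, I, hT', hI, M, hFr, hMb, hMc⟩ := hM CC H hHne hHT
  obtain ⟨T', I', hT'', hI', M', hFr', hMb', hMP, hMd'⟩ := p1 M hFr z hz htop D
    hDf (Set.range (fun c => φ (H c)) ∪ Set.range c) (by
      rintro _ (⟨c, rfl⟩ | ⟨i, rfl⟩)
      · exact hMb c
      · exact hMc i) F hFne hFd
    (by
      rintro ((_ | _) | ⟨b, j⟩) h1
      · exfalso
        rw [hF1, natDegree_one] at h1
        omega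
      · refine ⟨Sum.inl false, ?_⟩
        rw [hF1, hFX, derivative_X]
      · have h1' := h1
        rw [hFb] at h1
        have h2 := natDegree_iterate_derivative (F0 b) (min j.val (F0 b).natDegree)
        have h3 : j.val < (F0 b).natDegree := by omega
        have h4 := hF0d b
        refine ⟨Sum.inr (b, ⟨j.val + 1, by omega⟩), ?_⟩
        rw [hFb, hFb]
        simp only
        rw [min_eq_left h3.le, min_eq_left (show j.val + 1 ≤ (F0 b).natDegree by omega),
          Function.iterate_succ_apply'])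
    ⟨Sum.inl true, hFX⟩
    (by
      intro β hβ
      have h1 : φ ((Gt β).coeff 0) = (F β).coeff 0 := by
        rw [← coeff_map, hGtm]
      have h2 : φ (H0 (Sum.inl β)) ≠ 0 := by
        change φ ((Gt β).coeff 0) ≠ 0
        rw [h1]
        intro h2
        apply hFne β
        rw [eq_C_of_natDegree_eq_zero hβ, h2, map_zero]
      refine Or.inl ⟨Sum.inl β, ?_⟩
      change φ (H (Sum.inl β)) = (F β).coeff 0
      rw [hH1 (Sum.inl β) h2]
      exact h1)
    (by
      intro β β' hβ
      refine ⟨chi (F β) (F β'), chi_ne_zero _ _ (hFne β), ?_, dvd_chi _ _ (by omega), ?_⟩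
      · exact (natDegree_chi _ _).trans (hFd β)
      · intro j hj
        rw [← hchi, coeff_map] at hj ⊢
        have h2 : j ≤ D := by
          have h1 : (chi (Gt β) (Gt β')).coeff j ≠ 0 := fun h => hj (by rw [h, map_zero])
          have h3 := le_natDegree_of_ne_zero h1
          have h4 := natDegree_chi (Gt β) (Gt β')
          have h5 := (hGtT β).natDegree
          omega
        refine Or.inl ⟨Sum.inr (β, β', ⟨j, by omega⟩), ?_⟩
        change φ (H (Sum.inr (β, β', ⟨j, _⟩))) = φ ((chi (Gt β) (Gt β')).coeff j)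
        rw [hH1 (Sum.inr (β, β', ⟨j, by omega⟩)) hj]
        rfl)
  refine ⟨T', I', hT'', hI', M', hFr', ?_, fun i => hMP _ (Or.inr ⟨i, rfl⟩), ?_⟩
  · intro o
    have h1 := hMb' (Sum.inr (o, ⟨0, by omega⟩))
    have h2 : F (Sum.inr (o, ⟨0, by omega⟩)) = (Gr o).map φ := by
      rw [hFb]
      simp only
      rw [Nat.zero_min, Function.iterate_zero_apply]
    rw [h2] at h1
    exact h1
  · intro t'
    obtain ⟨hz', t, ht⟩ := hMd' t'
    refine ⟨hz', fun l => ?_⟩
    obtain ⟨a, ha, b, hb, hb0, hl⟩ := hFr t l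
    exact ⟨a, b, ht ⟨a, ha, rfl⟩, ht ⟨b, hb, rfl⟩, hb0, hl⟩

end fam

end Pool.Agent.N762.RC
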