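import Pool.Agent.N762.RC.Step

/-!
Models of fields which are generated by elements with equations of bounded degree in powers of
the generators with exponents powers of the characteristic.
-/

set_option autoImplicit false
set_option linter.unusedVariables false
set_option linter.unusedSimpArgs false
set_option linter.unusedSectionVars false

universe u

open Polynomial Pool.Agent.W558 Pool.Agent.W498.Tor Pool.Agent.W418.LCI Pool.Agent.N98

namespace Pool.Agent.N762.RC

section rel

variable (p : ℕ) [Fact p.Prime] (E : Type u) [Field E] [CharP E p]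

/-- Each coordinate is transcendental over the field generated by the following ones, or it is a
zero of a twisted polynomial of degree at most `D` with coefficients in the following
coordinates. -/
def Rel (D e : ℕ) : (n : ℕ) → (Fin n → ℕ) → (K : Type u) → [Field K] → [Algebra E K] →
    (Fin n → K) → Prop
  | 0, _, _, _, _, _ => True
  | n + 1, ε, K, _, _, x =>
    (Transcendental (LF (E := E) x) (x 0) ∨ ∃ G : (MvPolynomial (Fin n) E)[X], TD D G ∧
      G.map (ev p (tl E x) e (ε ∘ Fin.succ)) ≠ 0 ∧
      G.eval₂ ((algebraMap (LF (E := E) x) K).comp (ev p (tl E x) e (ε ∘ Fin.succ)))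
        (x 0 ^ p ^ ε 0) = 0) ∧
    Rel D e n (ε ∘ Fin.succ) (LF (E := E) x) (tl E x)

lemma Rel.mono {D D' e : ℕ} (h : D ≤ D') : ∀ (n : ℕ) (ε : Fin n → ℕ) (K : Type u) [Field K]
    [Algebra E K] (x : Fin n → K), Rel p E D e n ε K x → Rel p E D' e n ε K x := by
  intro n
  induction n with
  | zero => intro ε K _ _ x _; trivial
  | succ n ih =>
    rintro ε K _ _ x ⟨h1, h2⟩
    refine ⟨h1.imp id ?_, ih _ _ _ h2⟩
    rintro ⟨G, hG, hG'⟩
    exact ⟨G, fun i hi => (hG i hi).trans h, hG'⟩

lemma Rel.shift {D e c : ℕ} (hc : c ≤ e) : ∀ (n : ℕ) (ε : Fin n → ℕ) (K : Type u) [Field K]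
    [Algebra E K] (x : Fin n → K), (∀ i, c ≤ ε i) → Rel p E D e n ε K x →
      Rel p E D (e - c) n (fun i => ε i - c) K x := by
  intro n
  induction n with
  | zero => intro ε K _ _ x _ _; trivial
  | succ n ih =>
    rintro ε K _ _ x hε ⟨h1, h2⟩
    have hK : CharP K p := charP_of_injective_algebraMap (algebraMap E K).injective p
    have key : ∀ P : MvPolynomial (Fin n) E, ev p (tl E x) e (ε ∘ Fin.succ) P =
        (ev p (tl E x) (e - c) ((fun i => ε i - c) ∘ Fin.succ) P) ^ p ^ c := fun P =>
      ev_shift p (tl E x) e (ε ∘ Fin.succ) c hc (fun i => hε _) P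
    refine ⟨h1.imp id ?_, ih _ _ _ (fun i => hε _) h2⟩
    rintro ⟨G, hG, hG0, hG1⟩
    refine ⟨G, hG, ?_, ?_⟩
    · intro h
      apply hG0
      ext j
      have h3 := congrArg (fun Q => Q.coeff j) h
      simp only [coeff_map, coeff_zero] at h3
      rw [coeff_map, key, h3, coeff_zero, zero_pow (pow_ne_zero _ (Fact.out : p.Prime).ne_zero)]
    · set f' : MvPolynomial (Fin n) E →+* K := (algebraMap (LF (E := E) x) K).comp
        (ev p (tl E x) (e - c) ((fun i => ε i - c) ∘ Fin.succ)) with hf'
      have h4 : (iterateFrobenius K p c).comp f' = (algebraMap (LF (E := E) x) K).comp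
          (ev p (tl E x) e (ε ∘ Fin.succ) : MvPolynomial (Fin n) E →+* _) := by
        apply RingHom.ext
        intro P
        rw [RingHom.comp_apply, RingHom.comp_apply, RingHom.comp_apply, iterateFrobenius_def,
          key, map_pow]
      have h5 := hom_eval₂ G f' (iterateFrobenius K p c) (x 0 ^ p ^ (ε 0 - c))
      rw [h4, iterateFrobenius_def, iterateFrobenius_def, ← pow_mul, ← pow_add,
        Nat.sub_add_cancel (hε 0), hG1] at h5
      exact eq_zero_of_pow_eq_zero h5

end rel

section main

variable (p : ℕ) [Fact p.Prime] (k E : Type u) [Field k] [Field E] [CharP E p] [Algebra k E]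

/-- **Families of twisted polynomials of bounded degree.** -/
theorem main (hE : HasLM k E) : ∀ (n D : ℕ), 1 ≤ D →
    (n ≠ 0 → ((Nat.factorial (D ^ 2 ^ (n - 1)) : ℕ) : k) ≠ 0) →
    ∀ (e : ℕ) (ε : Fin n → ℕ), Monotone ε → (∀ i, ε i ≤ e) →
    ∀ (K : Type u) [Field K] [Algebra E K] [Algebra k K] [IsScalarTower k E K] (x : Fin n → K),
    IntermediateField.adjoin E (Set.range x) = ⊤ → Rel p E D e n ε K x →
    ∀ (C : Type) [Finite C] (c : C → E), (∀ i, c i ≠ 0) →
      Mdl (E := E) k (ev p x e ε) D (Sum.elim (fun i => algebraMap E K (c i))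
        (fun i : {i : Fin n // x i ≠ 0} => x i)) := by
  classical
  intro n
  induction n with
  | zero =>
    intro D hD _ e ε _ _ K _ _ _ _ x htop _ C _ c hc B _ P hP hdeg
    have := Fintype.ofFinite B
    have := Fintype.ofFinite C
    have hPC : ∀ b, P b = MvPolynomial.C ((P b).coeff 0) := fun b =>
      MvPolynomial.eq_C_of_isEmpty _
    have h0 : ∀ b, (P b).coeff 0 ≠ 0 := by
      intro b h
      apply hP b
      rw [hPC b, h, map_zero, map_zero]
    obtain ⟨T, I, hT, hI, M, Γ, hF, hfr⟩ := hE (B ⊕ C)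
      (Sum.elim (fun b => (P b).coeff 0 ^ p ^ e) c) (by
        rintro (b | i)
        · exact pow_ne_zero _ (h0 b)
        · exact hc i)
    have hsurj : ∀ y : K, ∃ e : E, algebraMap E K e = y := by
      intro y
      have hy : y ∈ IntermediateField.adjoin E (Set.range x) := by rw [htop]; trivial
      have : Set.range x = ∅ := Set.range_eq_empty x
      rw [this, IntermediateField.adjoin_empty, IntermediateField.mem_bot] at hy
      exact hy
    refine ⟨T, I, hT, hI, mapLM M, ?_, ?_, ?_⟩
    · intro t y
      obtain ⟨e, rfl⟩ := hsurj y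
      obtain ⟨a, ha, b, hb, hb0, rfl⟩ := hfr t e
      exact ⟨algebraMap E K a, ⟨a, ha, rfl⟩, algebraMap E K b, ⟨b, hb, rfl⟩,
        (_root_.map_ne_zero _).2 hb0, by rw [map_mul, map_inv₀]⟩
    · intro b
      have e1 : ev p x e ε (P b) = algebraMap E K ((P b).coeff 0 ^ p ^ e) := by
        conv_lhs => rw [hPC b]
        rw [ev_C]
      rw [e1]
      exact isBr_map (IsB.br ⟨Γ (Sum.inl b), fun t => hF (Sum.inl b) t⟩)
    · rintro (i | ⟨i, -⟩)
      · exact isBr_map (IsB.br ⟨Γ (Sum.inr i), fun t => hF (Sum.inr i) t⟩)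
      · exact i.elim0
  | succ n ih =>
    intro D hD hchar e ε hmono hle K _ _ _ _ x htop hrel C _ c hc B _ P hP hdeg
    have hchar' := hchar (Nat.succ_ne_zero n)
    rw [Nat.add_sub_cancel] at hchar'
    have hleD : D ≤ D ^ 2 ^ n := Nat.le_self_pow (by positivity) D
    have hleD2 : D ≤ D ^ 2 := Nat.le_self_pow (by norm_num) D
    have hDf : ((Nat.factorial D : ℕ) : k) ≠ 0 := by
      intro h
      apply hchar'
      obtain ⟨m, hm⟩ := Nat.factorial_dvd_factorial hleD
      rw [hm, Nat.cast_mul, h, zero_mul]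
    let c0 := ε 0
    have hc0 : ∀ i, c0 ≤ ε i := fun i => hmono (Fin.zero_le i)
    have hce : c0 ≤ e := hle 0
    let e' := e - c0
    let ε' : Fin (n + 1) → ℕ := fun i => ε i - c0
    have hrel' : Rel p E D e' (n + 1) ε' K x := Rel.shift p E hce (n + 1) ε K x hc0 hrel
    obtain ⟨hr1, hr2⟩ := hrel'
    let L := LF (E := E) x
    have hs1 : IsScalarTower k E L := IsScalarTower.of_algebraMap_eq fun r =>
      Subtype.ext (IsScalarTower.algebraMap_apply k E K r)
    have hs2 : IsScalarTower k L K := IsScalarTower.of_algebraMap_eq fun r => rfl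
    let φ : MvPolynomial (Fin n) E →+* L := ev p (tl E x) e' (ε' ∘ Fin.succ)
    have hx0 : x 0 ^ p ^ ε' 0 = x 0 := by
      change x 0 ^ p ^ (ε 0 - ε 0) = x 0
      rw [Nat.sub_self, pow_zero, pow_one]
    have hev : ∀ G : (MvPolynomial (Fin n) E)[X], aeval (x 0) (G.map φ) =
        G.eval₂ ((algebraMap L K).comp φ) (x 0 ^ p ^ ε' 0) := by
      intro G
      rw [hx0, aeval_def, eval₂_map]
    have hevP : ∀ b, aeval (x 0) ((MvPolynomial.finSuccEquiv E n (P b)).map φ) =
        ev p x e' ε' (P b) := by
      intro b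
      rw [hev]
      exact ev_fse p x e' ε' (P b)
    have hsh : ∀ b, ev p x e ε (P b) = (ev p x e' ε' (P b)) ^ p ^ c0 := fun b =>
      ev_shift p x e ε c0 hce hc0 (P b)
    have hih : Mdl k φ (D ^ 2) (Sum.elim (fun i => algebraMap E L (c i))
        (fun i : {i : Fin n // tl E x i ≠ 0} => tl E x i)) :=
      ih (D ^ 2) (Nat.one_le_pow _ _ hD) (by
        intro hn
        obtain ⟨m, rfl⟩ := Nat.exists_eq_succ_of_ne_zero hn
        rw [Nat.succ_eq_add_one, Nat.add_sub_cancel, ← pow_mul, ← pow_succ']
        exact hchar') e' (ε' ∘ Fin.succ)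
        (fun i j hij => Nat.sub_le_sub_right (hmono (Fin.succ_le_succ_iff.2 hij)) _)
        (fun i => Nat.sub_le_sub_right (hle _) _) L (tl E x) (tl_top x)
        (Rel.mono p E hleD2 _ _ _ _ hr2) C c hc
    let P' : Option B → MvPolynomial (Fin (n + 1)) E := fun o =>
      o.elim (if x 0 = 0 then 1 else MvPolynomial.X 0) P
    have hP' : ∀ o, ev p x e' ε' (P' o) ≠ 0 := by
      rintro (_ | b)
      · change ev p x e' ε' (if x 0 = 0 then 1 else MvPolynomial.X 0) ≠ 0
        split_ifs with h0
        · rw [map_one]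
          exact one_ne_zero
        · rw [ev_X, hx0]
          exact h0
      · intro h
        apply hP b
        rw [hsh]
        change (ev p x e' ε' (P' (some b))) ^ p ^ c0 = 0
        rw [h, zero_pow (pow_ne_zero _ (Fact.out : p.Prime).ne_zero)]
    have hdeg' : ∀ o, (P' o).totalDegree ≤ D := by
      rintro (_ | b)
      · change (if x 0 = 0 then (1 : MvPolynomial (Fin (n + 1)) E)
          else MvPolynomial.X 0).totalDegree ≤ D
        split_ifs with h0
        · rw [MvPolynomial.totalDegree_one]
          exact Nat.zero_le _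
        · rw [MvPolynomial.totalDegree_X]
          exact hD
      · exact hdeg b
    have hevP' : ∀ o, aeval (x 0) ((MvPolynomial.finSuccEquiv E n (P' o)).map φ) =
        ev p x e' ε' (P' o) := by
      intro o
      rw [hev]
      exact ev_fse p x e' ε' (P' o)
    obtain ⟨T, I, hT, hI, M, hFr, hMb, hMc⟩ := step φ D
      (Sum.elim (fun i => algebraMap E L (c i)) (fun i : {i : Fin n // tl E x i ≠ 0} => tl E x i))
      (by
        rintro (i | i)
        · exact (_root_.map_ne_zero _).2 (hc i)
        · exact i.2) hih hDf hD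
      (fun o => MvPolynomial.finSuccEquiv E n (P' o))
      (fun o i hi =>
        (MvPolynomial.totalDegree_coeff_finSuccEquiv_add_le (P' o) i hi).trans (hdeg' o))
      (x 0) (hd_top htop)
      (fun o => by
        rw [hevP']
        exact hP' o)
      (hr1.imp id (by
        rintro ⟨G, hG, hG0, hG1⟩
        refine ⟨G, hG, hG0, ?_⟩
        rw [hev]
        exact hG1))
    refine ⟨T, I, hT, hI, M, hFr, fun b => ?_, ?_⟩
    · rw [hsh, ← hevP]
      exact (hMb (some b)).pow _
    · rintro (i | ⟨i, hi⟩)
      · exact hMc (Sum.inl i)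
      · revert hi
        refine Fin.cases ?_ (fun i => ?_) i
        · intro h0
          have h1 := hMb none
          rw [hevP'] at h1
          change IsBr M (ev p x e' ε' (if x 0 = 0 then 1 else MvPolynomial.X 0)) at h1
          rw [if_neg h0, ev_X, hx0] at h1
          exact h1
        · intro hi
          exact hMc (Sum.inr ⟨i, fun h => hi (congrArg Subtype.val h)⟩)

end main

end Pool.Agent.N762.RC
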