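import Pool.Agent.N762.RC.Deg3
import Pool.Agent.N762.RC.Kum

/-!
Models of the inverse images of varieties of bounded degree under the maps which raise the
coordinates to arbitrary powers.
-/

set_option autoImplicit false
set_option linter.unusedVariables false
set_option linter.unusedSimpArgs false
set_option linter.unusedSectionVars false

universe u

open MvPolynomial Pool.Agent.W558 Pool.Agent.W418.LCI Pool.Agent.N98

namespace Pool.Agent.N762.RC

section point

/-- The point. -/
theorem hasLM_point (k : Type u) [Field k] : HasLM k k := by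
  intro H _ h hh
  have hbot : ∀ x : k, x ∈ (⊥ : Subalgebra k k) := fun x => Subalgebra.algebraMap_mem _ x
  have hsm : Algebra.Smooth k (⊥ : Subalgebra k k) :=
    Algebra.Smooth.of_equiv (Algebra.botEquiv k k).symm
  let M : LM (⊥ : Subalgebra k k) ⊤ Unit Empty :=
    { A := fun _ => ⊥
      H := fun _ => 1
      x := fun _ i => i.elim
      sm := fun _ => hsm
      base := fun _ => le_rfl
      H0 := fun _ => one_ne_zero
      HR := fun _ => Algebra.mem_top
      rt := fun _ _ => hbot _
      gl := fun _ _ f _ => ⟨0, hbot _⟩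
      dn := fun _ f _ => ⟨0, Algebra.mem_top⟩
      cv := fun V hV => ⟨(), fun f _ => hV f (hbot f)⟩
      xA := fun _ i => i.elim
      x0 := fun _ i => i.elim
      gi := fun _ _ i => i.elim
      snc := fun _ κ _ _ φ i => i.elim }
  refine ⟨Unit, Empty, inferInstance, inferInstance, M, fun _ i => i.elim, ?_, ?_⟩
  · intro t _
    exact ⟨h t, hh t, hbot _, hbot _, by simp⟩
  · intro t x
    exact ⟨x, hbot x, 1, hbot 1, one_ne_zero, by simp⟩

end point

section growth

variable (p : ℕ) [Fact p.Prime] {k : Type u} [Field k] [CharP k p] [PerfectField k]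

theorem rel_of_growth {Ω : Type u} [Field Ω] [Algebra k Ω] {N : ℕ} (X' : Fin N → Ω)
    (εN : Fin N → ℕ) (htopΩ : IntermediateField.adjoin k (Set.range X') = ⊤) (d δ C0 : ℕ)
    (htr : Algebra.trdeg k Ω = d)
    (hδ : ∀ t : ℕ, d.factorial * Module.finrank k (img k (fun j => X' j ^ p ^ εN j) t) ≤
      δ * (t + C0) ^ d) (e : ℕ) : ∀ (n : ℕ) (ε : Fin n → ℕ) (K : Type u) [Field K] [Algebra k K]
      (x : Fin n → K) (ι : K →ₐ[k] Ω), (∀ i, ∃ j, ι (x i) = X' j ∧ ε i = εN j) →
      IntermediateField.adjoin k (Set.range x) = ⊤ → Rel p k δ e n ε K x := by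
  intro n
  induction n with
  | zero => intros; trivial
  | succ n ih =>
    intro ε K _ _ x ι hι htop
    refine ⟨?_, ?_⟩
    · by_cases h : Transcendental (LF (E := k) x) (x 0)
      · exact Or.inl h
      · right
        have halg : IsAlgebraic (LF (E := k) x) (x 0) := by
          rw [Transcendental, not_not] at h
          exact h
        exact rel_one p X' εN htopΩ d δ C0 htr hδ e n K x ε ι hι htop halg
    · refine ih (ε ∘ Fin.succ) (LF (E := k) x) (tl k x) (ι.comp (LF (E := k) x).val) (fun i => ?_)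
        (tl_top x)
      obtain ⟨j, hj, hj'⟩ := hι i.succ
      exact ⟨j, hj, hj'⟩

/-- Powers with exponents powers of the characteristic. -/
theorem pow_models {K : Type u} [Field K] [Algebra k K] {N : ℕ} (x : Fin N → K) (ε : Fin N → ℕ)
    (htop : IntermediateField.adjoin k (Set.range x) = ⊤) (d D C0 : ℕ)
    (htr : Algebra.trdeg k K = d)
    (hδ : ∀ t : ℕ, d.factorial * Module.finrank k (img k (fun j => x j ^ p ^ ε j) t) ≤
      D * (t + C0) ^ d) (hD : N ≠ 0 → ((Nat.factorial (D ^ 2 ^ (N - 1)) : ℕ) : k) ≠ 0)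
    (B : Type) [Finite B] (G : B → MvPolynomial (Fin N) k)
    (hG : ∀ b, aeval (fun i => x i ^ p ^ ε i) (G b) ≠ 0) (hdeg : ∀ b, (G b).totalDegree ≤ D) :
    ∃ (T I : Type) (_ : Finite T) (_ : Fintype I) (M : LM (⊥ : Subalgebra k K) ⊤ T I),
      Frc M ∧ (∀ b, IsBr M (aeval (fun i => x i ^ p ^ ε i) (G b))) ∧
      ∀ i, x i ≠ 0 → IsBr M (x i) := by
  classical
  have hD1 : 1 ≤ D := one_le_of_growth (fun j => x j ^ p ^ ε j) d D C0 hδ
  let σ := Tuple.sort ε
  let e := Finset.univ.sup ε
  obtain ⟨ρ, hρ⟩ := exists_root p (k := k) e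
  have hrange : Set.range (x ∘ σ) = Set.range x := σ.surjective.range_comp x
  have htop' : IntermediateField.adjoin k (Set.range (x ∘ σ)) = ⊤ := by rw [hrange, htop]
  have hRel : Rel p k D e N (ε ∘ σ) K (x ∘ σ) :=
    rel_of_growth p x ε htop d D C0 htr hδ e N (ε ∘ σ) K (x ∘ σ) (AlgHom.id k K)
      (fun i => ⟨σ i, rfl, rfl⟩) htop'
  have hM := main p k k (hasLM_point k) N D hD1 hD e (ε ∘ σ) (Tuple.monotone_sort ε)
    (fun i => Finset.le_sup (f := ε) (Finset.mem_univ (σ i))) K (x ∘ σ) htop' hRel Empty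
    (fun c => c.elim) (fun c => c.elim)
  have hev : ∀ b, ev p (x ∘ σ) e (ε ∘ σ) (MvPolynomial.map ρ (rename σ.symm (G b))) =
      aeval (fun i => x i ^ p ^ ε i) (G b) := by
    intro b
    rw [ev_root p ρ hρ, aeval_rename]
    congr 2
    funext i
    simp only [Function.comp_apply, Equiv.apply_symm_apply]
  obtain ⟨T, I, hT, hI, M, hFr, hM1, hM2⟩ := hM B
    (fun b => MvPolynomial.map ρ (rename σ.symm (G b))) (fun b => by rw [hev]; exact hG b)
    (fun b => by
      refine le_trans ?_ ((totalDegree_rename_le σ.symm (G b)).trans (hdeg b))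
      exact Finset.sup_mono (support_map_subset _ _))
  refine ⟨T, I, hT, hI, M, hFr, fun b => by rw [← hev]; exact hM1 b, fun i hi => ?_⟩
  have h1 := hM2 (Sum.inr ⟨σ.symm i, by
    change x (σ (σ.symm i)) ≠ 0
    rw [Equiv.apply_symm_apply]
    exact hi⟩)
  change IsBr M (x (σ (σ.symm i))) at h1
  rw [Equiv.apply_symm_apply] at h1
  exact h1

end growth

end Pool.Agent.N762.RC
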