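import Pool.Agent.N762.RC.Pow

/-!
Models of the inverse images of varieties of bounded degree under the maps which raise the
coordinates to arbitrary powers.
-/

set_option autoImplicit false
set_option linter.unusedVariables false
set_option linter.unusedSimpArgs false
set_option linter.unusedSectionVars false

universe u

open MvPolynomial Pool.Agent.W558 Pool.Agent.W418.LCI Pool.Agent.N98

namespace Pool.Agent.N762.RC

section prep

variable {k K : Type u} [Field k] [Field K] [Algebra k K]

lemma img_val {τ : Type} (K1 : IntermediateField k K) (w : τ → K1) (t : ℕ) :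
    (img k w t).map (K1.val : K1 →ₐ[k] K).toLinearMap = img k (fun i => (w i : K)) t := by
  unfold img
  rw [← Submodule.map_comp]
  congr 1
  apply LinearMap.ext
  intro g
  change (K1.val (aeval w g) : K) = aeval (fun i => (w i : K)) g
  have := congrArg (fun f : MvPolynomial τ k →ₐ[k] K => f g) (comp_aeval (R := k) w K1.val)
  exact this

lemma finrank_img_val {τ : Type} (K1 : IntermediateField k K) (w : τ → K1) (t : ℕ) :
    Module.finrank k (img k w t) = Module.finrank k (img k (fun i => (w i : K)) t) := by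
  rw [← img_val]
  exact LinearEquiv.finrank_eq (Submodule.equivMapOfInjective (K1.val : K1 →ₐ[k] K).toLinearMap
    K1.val.injective _)

/-- The field generated by powers of generators. -/
lemma alg_of_pow {N : ℕ} (y : Fin N → K) (htop : IntermediateField.adjoin k (Set.range y) = ⊤)
    (K1 : IntermediateField k K) (n : Fin N → ℕ) (hn : ∀ i, n i ≠ 0) (h : ∀ i, y i ^ n i ∈ K1) :
    IntermediateField.adjoin K1 (Set.range y) = ⊤ ∧ Algebra.IsAlgebraic K1 K := by
  have htop' : IntermediateField.adjoin K1 (Set.range y) = ⊤ := by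
    rw [eq_top_iff]
    intro z _
    have h1 : z ∈ IntermediateField.adjoin k (Set.range y) := by rw [htop]; trivial
    have h2 : IntermediateField.adjoin k (Set.range y) ≤
        (IntermediateField.adjoin K1 (Set.range y)).restrictScalars k := by
      rw [IntermediateField.adjoin_le_iff]
      intro z hz
      exact IntermediateField.subset_adjoin K1 _ hz
    exact h2 h1
  refine ⟨htop', ?_⟩
  have h1 : Algebra.IsAlgebraic K1 (IntermediateField.adjoin K1 (Set.range y)) := by
    apply IntermediateField.isAlgebraic_adjoin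
    rintro _ ⟨i, rfl⟩
    refine IsIntegral.of_pow (Nat.pos_of_ne_zero (hn i)) ?_
    have h3 : y i ^ n i = algebraMap K1 K ⟨y i ^ n i, h i⟩ := rfl
    rw [h3]
    exact isIntegral_algebraMap
  refine ⟨fun z => ?_⟩
  have hz : z ∈ IntermediateField.adjoin K1 (Set.range y) := by
    rw [htop']
    trivial
  exact (h1.isAlgebraic ⟨z, hz⟩).algHom (IntermediateField.val _)

end prep

section all

variable {k : Type u} [Field k]

/-- **Arbitrary powers of the coordinates.** -/
theorem all_models (p : ℕ) [Fact p.Prime] [CharP k p] [PerfectField k] {K : Type u} [Field K] [Algebra k K] {N : ℕ} (y : Fin N → K) (m : Fin N → ℕ)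
    (hm : ∀ i, m i ≠ 0)
    (htop : IntermediateField.adjoin k (Set.range y) = ⊤) (d D C0 : ℕ)
    (htr : Algebra.trdeg k K = d)
    (hδ : ∀ t : ℕ, d.factorial * Module.finrank k (img k (fun j => y j ^ m j) t) ≤
      D * (t + C0) ^ d) (hD : N ≠ 0 → ((Nat.factorial (D ^ 2 ^ (N - 1)) : ℕ) : k) ≠ 0)
    (B : Type) [Finite B] (G : B → MvPolynomial (Fin N) k)
    (hG : ∀ b, aeval (fun i => y i ^ m i) (G b) ≠ 0) (hdeg : ∀ b, (G b).totalDegree ≤ D) :
    ∃ (T I : Type) (_ : Finite T) (_ : Fintype I) (M : LM (⊥ : Subalgebra k K) ⊤ T I),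
      Frc M ∧ (∀ b, IsBr M (aeval (fun i => y i ^ m i) (G b))) ∧
      ∀ i, y i ≠ 0 → IsBr M (y i) := by
  classical
  have := Fintype.ofFinite B
  have hfac : ∀ i, ∃ e n', ¬ p ∣ n' ∧ m i = p ^ e * n' := fun i =>
    Nat.exists_eq_pow_mul_and_not_dvd (hm i) p (Fact.out : p.Prime).ne_one
  choose ε n hn hmn using hfac
  have hn0 : ∀ i, n i ≠ 0 := by
    intro i h
    apply hn i
    rw [h]
    exact dvd_zero _
  let z : Fin N → K := fun i => y i ^ n i
  let K1 : IntermediateField k K := IntermediateField.adjoin k (Set.range z)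
  have hz : ∀ i, z i ∈ K1 := fun i => IntermediateField.subset_adjoin _ _ ⟨i, rfl⟩
  let z1 : Fin N → K1 := fun i => ⟨z i, hz i⟩
  have hw : ∀ i, ((z1 i ^ p ^ ε i : K1) : K) = y i ^ m i := by
    intro i
    change (y i ^ n i) ^ p ^ ε i = y i ^ m i
    rw [← pow_mul, hmn i, mul_comm]
  have htop1 : IntermediateField.adjoin k (Set.range z1) = ⊤ := by
    apply IntermediateField.lift_injective K1
    rw [IntermediateField.lift_adjoin, IntermediateField.lift_top, ← Set.range_comp]
    rfl
  obtain ⟨htop', halg⟩ := alg_of_pow y htop K1 n hn0 hz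
  have htr1 : Algebra.trdeg k K1 = d := by
    have h1 : Algebra.trdeg k K1 + Algebra.trdeg K1 K = Algebra.trdeg k K := trdeg_add_eq k K1
    have h2 : Algebra.trdeg K1 K = 0 := trdeg_eq_zero
    rw [← htr, ← h1, h2, add_zero]
  have hδ1 : ∀ t : ℕ, d.factorial * Module.finrank k (img k (fun j => z1 j ^ p ^ ε j) t) ≤
      D * (t + C0) ^ d := by
    intro t
    rw [finrank_img_val K1]
    have h1 : (fun i => ((z1 i ^ p ^ ε i : K1) : K)) = fun i => y i ^ m i := funext hw
    rw [h1]
    exact hδ t
  have hval : ∀ g : MvPolynomial (Fin N) k,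
      algebraMap K1 K (aeval (fun i => z1 i ^ p ^ ε i) g) = aeval (fun i => y i ^ m i) g := by
    intro g
    have h1 : (fun i => K1.val (z1 i ^ p ^ ε i)) = fun i => y i ^ m i := funext hw
    have h2 := congrArg (fun f : MvPolynomial (Fin N) k →ₐ[k] K => f g)
      (comp_aeval (R := k) (fun i => z1 i ^ p ^ ε i) K1.val)
    change K1.val (aeval (fun i => z1 i ^ p ^ ε i) g) = aeval _ g at h2
    rw [h1] at h2
    exact h2
  obtain ⟨T, I, hT, hI, M, hFr, hMb, hMz⟩ := pow_models p z1 ε htop1 d D C0 htr1 hδ1 hD B G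
    (fun b h => hG b (by rw [← hval, h, map_zero])) hdeg
  -- the tame radicals
  let J := {i : Fin N // y i ≠ 0}
  let eq : Fin (Fintype.card J) ≃ J := (Fintype.equivFin J).symm
  let g : B ⊕ J → K1 := Sum.elim (fun b => aeval (fun i => z1 i ^ p ^ ε i) (G b)) fun i => z1 i
  have hg : ∀ b, IsBr M (g b) := by
    rintro (b | i)
    · exact hMb b
    · refine hMz i.1 fun h => ?_
      apply pow_ne_zero (n i.1) i.2
      exact congrArg Subtype.val h
  have hgen : IntermediateField.adjoin K1 (Set.range fun j => y (eq j)) = ⊤ := by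
    rw [eq_top_iff, ← htop', IntermediateField.adjoin_le_iff]
    rintro _ ⟨i, rfl⟩
    by_cases h : y i = 0
    · rw [h]
      exact zero_mem _
    · refine IntermediateField.subset_adjoin K1 _ ⟨eq.symm ⟨i, h⟩, ?_⟩
      change y (eq (eq.symm ⟨i, h⟩)) = y i
      rw [Equiv.apply_symm_apply]
  obtain ⟨T', I', hT', hI', M', hFr', hM1, hM2⟩ := kummer_isBr p M hFr g hg
    (fun j => y (eq j)) (fun j => (eq j).2) (fun j => n (eq j))
    (fun j h => hn (eq j) ((CharP.cast_eq_zero_iff k p _).1 h))
    (fun j => Pi.single (Sum.inr (eq j)) 1) (fun j => by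
      rw [Finset.prod_eq_single (Sum.inr (eq j))]
      · rw [Pi.single_eq_same, zpow_one]
        rfl
      · intro l _ hl
        rw [Pi.single_eq_of_ne hl, zpow_zero]
      · intro h
        exact absurd (Finset.mem_univ _) h) hgen
  refine ⟨T', I', hT', hI', M', hFr', fun b => ?_, fun i hi => ?_⟩
  · rw [← hval]
    exact hM1 (Sum.inl b)
  · have h1 := hM2 (eq.symm ⟨i, hi⟩)
    rw [Equiv.apply_symm_apply] at h1
    exact h1

end all

end Pool.Agent.N762.RC
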