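import Pool.Agent.N762.RC.Deg3

/-!
The equations of bounded degree of the coordinates of a variety of bounded degree: the relative
version, over a field `E` which is algebraic over a field `F` of powers.
-/

set_option autoImplicit false
set_option linter.unusedVariables false
set_option linter.unusedSimpArgs false
set_option linter.unusedSectionVars false

universe u

open MvPolynomial Pool.Agent.W558 Pool.Agent.W418.LCI Pool.Agent.N98

namespace Pool.Agent.N762.RC

section basic

variable {F E K : Type u} [Field F] [Field E] [Field K] [Algebra F E] [Algebra E K] [Algebra F K]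
  [IsScalarTower F E K]

lemma alg_of_top' [Algebra.IsAlgebraic F E] {τ : Type*} (x : τ → K)
    (htop : IntermediateField.adjoin E (Set.range x) = ⊤) :
    Algebra.IsAlgebraic (Algebra.adjoin F (Set.range x)) K := by
  refine ⟨fun z => ?_⟩
  have hz : z ∈ IntermediateField.adjoin E (Set.range x) := by
    rw [htop]
    trivial
  induction hz using IntermediateField.adjoin_induction with
  | mem z hz =>
    exact isAlgebraic_algebraMap (⟨z, Algebra.subset_adjoin hz⟩ : Algebra.adjoin F (Set.range x))
  | algebraMap c =>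
    have h1 : IsAlgebraic F (algebraMap E K c) :=
      (Algebra.IsAlgebraic.isAlgebraic (R := F) c).algebraMap
    refine h1.extendScalars (S := Algebra.adjoin F (Set.range x)) ?_
    exact FaithfulSMul.algebraMap_injective F (Algebra.adjoin F (Set.range x))
  | add a b _ _ ha hb => exact ha.add hb
  | inv a _ ha => exact ha.inv
  | mul a b _ _ ha hb => exact ha.mul hb

/-- A transcendence basis among given generators. -/
lemma exists_tb' [Algebra.IsAlgebraic F E] {τ : Type} [Finite τ] (x : τ → K)
    (htop : IntermediateField.adjoin E (Set.range x) = ⊤) :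
    ∃ (m : ℕ) (a : Fin m → K) (i : Fin m → τ), IsTranscendenceBasis F a ∧ ∀ c, a c = x (i c) := by
  classical
  have halg := alg_of_top' (F := F) x htop
  obtain ⟨s, hs, hb⟩ := exists_isTranscendenceBasis_subset (R := F) (Set.range x)
  have hsf : s.Finite := (Set.finite_range x).subset hs
  have := hsf.fintype
  let e : Fin (Fintype.card s) ≃ s := (Fintype.equivFin s).symm
  have h1 : ∀ c, ∃ j, x j = (e c : K) := fun c => hs (e c).2
  choose i hi using h1
  refine ⟨Fintype.card s, fun c => (e c : K), i, ?_, fun c => (hi c).symm⟩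
  exact (isTranscendenceBasis_equiv e).2 hb

/-- A transcendence basis among given generators which extends a given family. -/
lemma exists_tb_ext' [Algebra.IsAlgebraic F E] {τ : Type} [Finite τ] (x : τ → K)
    (htop : IntermediateField.adjoin E (Set.range x) = ⊤) {m : ℕ} (a : Fin m → K)
    (ha : AlgebraicIndependent F a) (i : Fin m → τ) (hi : ∀ c, a c = x (i c)) :
    ∃ (d : ℕ) (v : Fin d → K) (κ : Fin m → Fin d) (j : Fin d → τ), IsTranscendenceBasis F v ∧
      Function.Injective κ ∧ (∀ c, v (κ c) = a c) ∧ (∀ b, v b = x (j b)) ∧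
      ∀ c, j (κ c) = i c := by
  classical
  have halg := alg_of_top' (F := F) x htop
  have hsub : Set.range a ⊆ Set.range x := by
    rintro _ ⟨c, rfl⟩
    exact ⟨i c, (hi c).symm⟩
  obtain ⟨s, hs1, hs, hb⟩ := exists_isTranscendenceBasis_between (R := F) (Set.range a)
    (Set.range x) hsub ha.to_subtype_range
  have hsf : s.Finite := (Set.finite_range x).subset hs
  have := hsf.fintype
  let e : Fin (Fintype.card s) ≃ s := (Fintype.equivFin s).symm
  have h1 : ∀ c, ∃ j, x j = (e c : K) := fun c => hs (e c).2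
  choose j0 hj0 using h1
  let κ : Fin m → Fin (Fintype.card s) := fun c => e.symm ⟨a c, hs1 ⟨c, rfl⟩⟩
  have hκ : Function.Injective κ := by
    intro c c' h
    have h2 := e.symm.injective h
    exact ha.injective (congrArg Subtype.val h2)
  have hv : ∀ c, ((e (κ c) : s) : K) = a c := by
    intro c
    change ((e (e.symm ⟨a c, _⟩) : s) : K) = a c
    rw [e.apply_symm_apply]
  refine ⟨Fintype.card s, fun c => (e c : K), κ,
    fun b => if h : ∃ c, κ c = b then i h.choose else j0 b, ?_, hκ, hv, ?_, ?_⟩
  · exact (isTranscendenceBasis_equiv e).2 hb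
  · intro b
    by_cases h : ∃ c, κ c = b
    · dsimp only
      rw [dif_pos h, ← hi]
      conv_lhs => rw [← h.choose_spec]
      exact hv _
    · dsimp only
      rw [dif_neg h]
      exact (hj0 b).symm
  · intro c
    have h : ∃ c', κ c' = κ c := ⟨c, rfl⟩
    dsimp only
    rw [dif_pos h, hκ h.choose_spec]

end basic

section map

variable (p : ℕ) [Fact p.Prime] {F E K : Type u} [Field F] [Field E] [Field K] [CharP E p]
  [Algebra F E] [Algebra E K] [Algebra F K] [IsScalarTower F E K] {n m : ℕ}

lemma ev_root' (ρ : F →+* E) {e : ℕ} (hρ : ∀ a, (ρ a) ^ p ^ e = algebraMap F E a) (x : Fin n → K)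
    (ε : Fin n → ℕ) (Q : MvPolynomial (Fin n) F) :
    ev p x e ε (MvPolynomial.map ρ Q) = aeval (fun i => x i ^ p ^ ε i) Q := by
  have h : (ev p x e ε).comp (MvPolynomial.map ρ) =
      ((aeval (fun i => x i ^ p ^ ε i) : MvPolynomial (Fin n) F →ₐ[F] K) :
        MvPolynomial (Fin n) F →+* K) := by
    apply MvPolynomial.ringHom_ext
    · intro a
      rw [RingHom.comp_apply, MvPolynomial.map_C, ev_C, hρ, RingHom.coe_coe, aeval_C,
        ← IsScalarTower.algebraMap_apply]
    · intro i
      rw [RingHom.comp_apply, MvPolynomial.map_X, ev_X, RingHom.coe_coe, aeval_X]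
  exact congrArg (fun f : MvPolynomial (Fin n) F →+* K => f Q) h

lemma map_fse' (ρ : F →+* E) {e : ℕ} (hρ : ∀ a, (ρ a) ^ p ^ e = algebraMap F E a) (x : Fin n → K)
    (ε : Fin n → ℕ) (i : Fin m → Fin n) (P : MvPolynomial (Option (Fin m)) F) :
    ((finSuccEquiv E n) (MvPolynomial.map ρ (rename (rr i) P))).map (ev p x e ε) =
      (optionEquivLeft F (Fin m) P).map
        ((aeval (fun c => x (i c) ^ p ^ ε (i c)) : MvPolynomial (Fin m) F →ₐ[F] K) :
          MvPolynomial (Fin m) F →+* K) := by
  have h : ((Polynomial.mapRingHom (ev p x e ε)).comp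
      ((finSuccEquiv E n) : MvPolynomial (Fin (n + 1)) E →+* Polynomial (MvPolynomial (Fin n) E))).comp
      ((MvPolynomial.map ρ).comp ((rename (rr i) : MvPolynomial (Option (Fin m)) F →ₐ[F] _) :
        MvPolynomial (Option (Fin m)) F →+* MvPolynomial (Fin (n + 1)) F)) =
      (Polynomial.mapRingHom ((aeval (fun c => x (i c) ^ p ^ ε (i c)) :
        MvPolynomial (Fin m) F →ₐ[F] K) : MvPolynomial (Fin m) F →+* K)).comp
        ((optionEquivLeft F (Fin m)) : MvPolynomial (Option (Fin m)) F →+*
          Polynomial (MvPolynomial (Fin m) F)) := by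
    apply MvPolynomial.ringHom_ext
    · intro a
      have h1 : ∀ b : E, finSuccEquiv E n (C b) = Polynomial.C (C b) := fun b =>
        (finSuccEquiv E n).commutes b
      have h2 : optionEquivLeft F (Fin m) (C a) = Polynomial.C (C a) :=
        (optionEquivLeft F (Fin m)).commutes a
      simp only [RingHom.comp_apply, RingHom.coe_coe]
      rw [rename_C, MvPolynomial.map_C, h1, h2, Polynomial.coe_mapRingHom,
        Polynomial.coe_mapRingHom, Polynomial.map_C, Polynomial.map_C, ev_C, hρ, RingHom.coe_coe,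
        aeval_C, ← IsScalarTower.algebraMap_apply]
    · intro o
      simp only [RingHom.comp_apply, RingHom.coe_coe]
      rw [rename_X, MvPolynomial.map_X]
      rcases o with _ | c
      · change Polynomial.mapRingHom (ev p x e ε) (finSuccEquiv E n (X 0)) = _
        rw [finSuccEquiv_X_zero, optionEquivLeft_X_none, Polynomial.coe_mapRingHom,
          Polynomial.coe_mapRingHom, Polynomial.map_X, Polynomial.map_X]
      · change Polynomial.mapRingHom (ev p x e ε) (finSuccEquiv E n (X (i c).succ)) = _
        rw [finSuccEquiv_X_succ, optionEquivLeft_X_some, Polynomial.coe_mapRingHom,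
          Polynomial.coe_mapRingHom, Polynomial.map_C, Polynomial.map_C, ev_X, RingHom.coe_coe,
          aeval_X]
  exact congrArg (fun f : MvPolynomial (Option (Fin m)) F →+* Polynomial K => f P) h

end map

section one

variable (p : ℕ) [Fact p.Prime] {F E : Type u} [Field F] [Field E] [CharP E p] [Algebra F E]
  [Algebra.IsAlgebraic F E]

/-- The relation of one coordinate. -/
theorem rel_one' {Ω : Type u} [Field Ω] [Algebra E Ω] [Algebra F Ω] [IsScalarTower F E Ω] {N : ℕ}
    (X' : Fin N → Ω) (εN : Fin N → ℕ) (htopΩ : IntermediateField.adjoin E (Set.range X') = ⊤)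
    (d δ C0 : ℕ) (htr : Algebra.trdeg F Ω = d)
    (hδ : ∀ t : ℕ, d.factorial * Module.finrank F (img F (fun j => X' j ^ p ^ εN j) t) ≤
      δ * (t + C0) ^ d) (e : ℕ) (ρ : F →+* E) (hρ : ∀ a, (ρ a) ^ p ^ e = algebraMap F E a)
    (n : ℕ) (K : Type u) [Field K] [Algebra E K] [Algebra F K] [IsScalarTower F E K]
    (x : Fin (n + 1) → K)
    (ε : Fin (n + 1) → ℕ) (ι : K →ₐ[E] Ω) (hι : ∀ i, ∃ j, ι (x i) = X' j ∧ ε i = εN j)
    (htop : IntermediateField.adjoin E (Set.range x) = ⊤)
    (halg : IsAlgebraic (LF (E := E) x) (x 0)) :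
    ∃ G : Polynomial (MvPolynomial (Fin n) E), TD δ G ∧
      G.map (ev p (tl E x) e (ε ∘ Fin.succ)) ≠ 0 ∧
      G.eval₂ ((algebraMap (LF (E := E) x) K).comp (ev p (tl E x) e (ε ∘ Fin.succ)))
        (x 0 ^ p ^ ε 0) = 0 := by
  classical
  have hp0 : p ≠ 0 := (Fact.out : p.Prime).ne_zero
  let L := LF (E := E) x
  let ιF : K →ₐ[F] Ω := ι.restrictScalars F
  have hιF : ∀ z, ιF z = ι z := fun z => rfl
  choose j hj hjε using hι
  -- a transcendence basis of `L`
  obtain ⟨m, a, i, hab, hai⟩ := exists_tb' (F := F) (tl E x) (tl_top x)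
  let θ : L →ₐ[F] Ω := (ι.comp L.val).restrictScalars F
  have hθ : ∀ c, θ (a c) = X' (j (i c).succ) := by
    intro c
    rw [← hj, hai]
    rfl
  have hθa : AlgebraicIndependent F (fun c => θ (a c)) :=
    hab.1.map' (f := θ) (ι.comp L.val).injective
  obtain ⟨d', v, κ, jv, hvb, hκ, hvκ, hvj, hjκ⟩ := exists_tb_ext' (F := F) X' htopΩ
    (fun c => θ (a c)) hθa (fun c => j (i c).succ) hθ
  have hd' : d' = d := by
    have h1 := hvb.lift_cardinalMk_eq_trdeg
    rw [htr, Cardinal.mk_fin, Cardinal.lift_natCast, Cardinal.lift_natCast, Nat.cast_inj] at h1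
    exact h1
  subst hd'
  -- the powers
  let W : Fin N → Ω := fun j => X' j ^ p ^ εN j
  let r0 : Option (Fin d') → Fin N := fun o => o.elim (j 0) jv
  have hyind : AlgebraicIndependent F (fun b => (W ∘ r0) (some b)) := by
    have h1 := ind_pow hvb.1 (fun b => p ^ εN (jv b)) (fun b => pow_ne_zero _ hp0)
    have h2 : (fun b => (W ∘ r0) (some b)) = fun b => v b ^ p ^ εN (jv b) := by
      funext b
      change X' (jv b) ^ p ^ εN (jv b) = v b ^ p ^ εN (jv b)
      rw [hvj]
    rw [h2]
    exact h1
  have hgr : ∀ t : ℕ, d'.factorial * Module.finrank F (img F (W ∘ r0) t) ≤ δ * (t + C0) ^ d' := by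
    intro t
    refine le_trans (Nat.mul_le_mul_left _ ?_) (hδ t)
    have hfin : FiniteDimensional F (img F W t) := by
      unfold img
      infer_instance
    exact Submodule.finrank_mono (img_le_of_comp W r0 t)
  have hcard : Fintype.card (Option (Fin d')) = d' + 1 := by
    rw [Fintype.card_option, Fintype.card_fin]
  obtain ⟨g0, hg0, hg0'⟩ := exists_rel_of_growth d' hcard (W ∘ r0) δ C0 hgr
  obtain ⟨P, hP, hker⟩ := exists_gen_option (W ∘ r0) hyind g0 hg0 hg0'
  have hPδ : P.totalDegree ≤ δ := totalDegree_le_of_growth d' hcard (W ∘ r0) δ C0 hgr P hP.ne_zero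
    (fun g hg => (hker g).1 hg)
  -- the dependency over the smaller set of variables
  let fam : Option (Fin m) → K := fun o => o.elim (x 0 ^ p ^ ε 0)
    (fun c => (x (i c).succ) ^ p ^ ε (i c).succ)
  have hfam : ∀ o, ι (fam o) = (W ∘ r0) (Option.map κ o) := by
    intro o
    rcases o with _ | c
    · change ι (x 0 ^ p ^ ε 0) = X' (j 0) ^ p ^ εN (j 0)
      rw [map_pow, hj, hjε]
    · change ι ((x (i c).succ) ^ p ^ ε (i c).succ) = X' (jv (κ c)) ^ p ^ εN (jv (κ c))
      rw [map_pow, hj, hjε, hjκ]
  have hfam' : ∀ g : MvPolynomial (Option (Fin m)) F,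
      ι (aeval fam g) = aeval (W ∘ r0) (rename (Option.map κ) g) := by
    intro g
    rw [aeval_rename]
    have h1 : ιF (aeval fam g) = aeval (fun o => ιF (fam o)) g := by
      have := congrArg (fun f : MvPolynomial (Option (Fin m)) F →ₐ[F] Ω => f g)
        (comp_aeval (R := F) fam ιF)
      exact this
    rw [← hιF, h1]
    congr 2
    funext o
    exact hfam o
  have hdep : ∃ g : MvPolynomial (Option (Fin m)) F, g ≠ 0 ∧ aeval fam g = 0 := by
    by_contra hcon
    push Not at hcon
    have hind : AlgebraicIndependent F fam := by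
      rw [algebraicIndependent_iff]
      intro g hg
      by_contra h
      exact hcon g h hg
    have hKL : Algebra.IsAlgebraic L K := by
      have h1 : Algebra.IsAlgebraic L (IntermediateField.adjoin L {x 0}) :=
        IntermediateField.isAlgebraic_adjoin_simple halg.isIntegral
      refine ⟨fun y => ?_⟩
      have hy : y ∈ IntermediateField.adjoin L {x 0} := by
        rw [hd_top htop]
        trivial
      exact (h1.isAlgebraic ⟨y, hy⟩).algHom (IntermediateField.val _)
    have h1 := hind.lift_cardinalMk_le_trdeg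
    have hsc : IsScalarTower F L K := IsScalarTower.of_algebraMap_eq fun r => rfl
    have h2 : Algebra.trdeg F L + Algebra.trdeg L K = Algebra.trdeg F K := trdeg_add_eq F L
    have h3 : Algebra.trdeg L K = 0 := trdeg_eq_zero
    have h4 := hab.lift_cardinalMk_eq_trdeg
    rw [Cardinal.mk_fin, Cardinal.lift_natCast, Cardinal.lift_uzero] at h4
    rw [← h2, h3, add_zero, ← h4, Cardinal.mk_fintype, Fintype.card_option, Fintype.card_fin,
      Cardinal.lift_natCast, Cardinal.lift_natCast, Nat.cast_le] at h1
    omega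
  obtain ⟨g, hg, hg'⟩ := hdep
  have hdvd : P ∣ rename (Option.map κ) g := by
    rw [← hker, ← hfam', hg', map_zero]
  obtain ⟨P0, hP0⟩ := exists_rename_of_dvd (Option.map κ) (Option.map_injective hκ) hg hdvd
  have hP0' : P0 ≠ 0 := by
    rintro rfl
    rw [map_zero] at hP0
    exact hP.ne_zero hP0.symm
  have hP0δ : P0.totalDegree ≤ δ := by
    rw [← totalDegree_rename_inj (Option.map κ) (Option.map_injective hκ) P0, hP0]
    exact hPδ
  have hP0z : aeval fam P0 = 0 := by
    have h1 : ι (aeval fam P0) = ι 0 := ?_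
    · exact ι.injective h1
    rw [hfam', hP0, map_zero]
    exact (hker P).2 dvd_rfl
  let Q : MvPolynomial (Fin (n + 1)) E := MvPolynomial.map ρ (rename (rr i) P0)
  have hQ : Q.totalDegree ≤ δ := by
    refine le_trans ?_ ((totalDegree_rename_le (rr i) P0).trans hP0δ)
    exact Finset.sup_mono (support_map_subset _ _)
  refine ⟨finSuccEquiv E n Q, ?_, ?_, ?_⟩
  · intro i hi
    exact (totalDegree_coeff_finSuccEquiv_add_le Q i hi).trans hQ
  · rw [map_fse' p ρ hρ (tl E x) (ε ∘ Fin.succ) i P0]
    have hinj : Function.Injective ((aeval (fun c => tl E x (i c) ^ p ^ (ε ∘ Fin.succ) (i c)) :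
        MvPolynomial (Fin m) F →ₐ[F] L) : MvPolynomial (Fin m) F →+* L) := by
      have h1 := ind_pow hab.1 (fun c => p ^ ε (i c).succ) (fun c => pow_ne_zero _ hp0)
      have h2 : (fun c => tl E x (i c) ^ p ^ (ε ∘ Fin.succ) (i c)) =
          fun c => a c ^ p ^ ε (i c).succ := by
        funext c
        rw [hai]
        rfl
      rw [h2]
      exact h1
    intro h0
    apply hP0'
    apply (optionEquivLeft F (Fin m)).injective
    apply Polynomial.map_injective _ hinj
    rw [h0, map_zero, Polynomial.map_zero]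
  · rw [ev_fse, ev_root' p ρ hρ, aeval_rename]
    have h1 : (fun i => x i ^ p ^ ε i) ∘ rr i = fam := by
      funext o
      rcases o with _ | c <;> rfl
    rw [h1]
    exact hP0z

theorem rel_of_growth' {Ω : Type u} [Field Ω] [Algebra E Ω] [Algebra F Ω] [IsScalarTower F E Ω]
    {N : ℕ} (X' : Fin N → Ω) (εN : Fin N → ℕ)
    (htopΩ : IntermediateField.adjoin E (Set.range X') = ⊤) (d δ C0 : ℕ)
    (htr : Algebra.trdeg F Ω = d)
    (hδ : ∀ t : ℕ, d.factorial * Module.finrank F (img F (fun j => X' j ^ p ^ εN j) t) ≤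
      δ * (t + C0) ^ d) (e : ℕ) (ρ : F →+* E) (hρ : ∀ a, (ρ a) ^ p ^ e = algebraMap F E a) :
      ∀ (n : ℕ) (ε : Fin n → ℕ) (K : Type u) [Field K] [Algebra E K]
      [Algebra F K] [IsScalarTower F E K]
      (x : Fin n → K) (ι : K →ₐ[E] Ω), (∀ i, ∃ j, ι (x i) = X' j ∧ ε i = εN j) →
      IntermediateField.adjoin E (Set.range x) = ⊤ → Rel p E δ e n ε K x := by
  intro n
  induction n with
  | zero => intros; trivial
  | succ n ih =>
    intro ε K _ _ _ _ x ι hι htop
    refine ⟨?_, ?_⟩
    · by_cases h : Transcendental (LF (E := E) x) (x 0)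
      · exact Or.inl h
      · right
        have halg : IsAlgebraic (LF (E := E) x) (x 0) := by
          rw [Transcendental, not_not] at h
          exact h
        exact rel_one' p X' εN htopΩ d δ C0 htr hδ e ρ hρ n K x ε ι hι htop halg
    · refine ih (ε ∘ Fin.succ) (LF (E := E) x) (tl E x) (ι.comp (LF (E := E) x).val) (fun i => ?_)
        (tl_top x)
      obtain ⟨j, hj, hj'⟩ := hι i.succ
      exact ⟨j, hj, hj'⟩

end one

end Pool.Agent.N762.RC
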