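import Pool.Agent.N762.RC.RDeg
import Pool.Agent.N762.RC.Pow2

/-!
Models of the inverse images of varieties of bounded degree under the maps which raise the
coordinates to arbitrary powers: the relative version.
-/

set_option autoImplicit false
set_option linter.unusedVariables false
set_option linter.unusedSimpArgs false
set_option linter.unusedSectionVars false

universe u

open MvPolynomial Pool.Agent.W558 Pool.Agent.W418.LCI Pool.Agent.N98

namespace Pool.Agent.N762.RC

section prep

variable {F E K : Type u} [Field F] [Field E] [Field K] [Algebra F E] [Algebra E K] [Algebra F K]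
  [IsScalarTower F E K]

lemma img_val' {τ : Type} (K1 : IntermediateField E K) (w : τ → K1) (t : ℕ) :
    (img F w t).map ((K1.val : K1 →ₐ[E] K).restrictScalars F).toLinearMap =
      img F (fun i => (w i : K)) t := by
  unfold img
  rw [← Submodule.map_comp]
  congr 1
  apply LinearMap.ext
  intro g
  change ((K1.val : K1 →ₐ[E] K).restrictScalars F) (aeval w g) = aeval (fun i => (w i : K)) g
  have := congrArg (fun f : MvPolynomial τ F →ₐ[F] K => f g)
    (comp_aeval (R := F) w ((K1.val : K1 →ₐ[E] K).restrictScalars F))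
  exact this

lemma finrank_img_val' {τ : Type} (K1 : IntermediateField E K) (w : τ → K1) (t : ℕ) :
    Module.finrank F (img F w t) = Module.finrank F (img F (fun i => (w i : K)) t) := by
  rw [← img_val']
  exact LinearEquiv.finrank_eq (Submodule.equivMapOfInjective
    ((K1.val : K1 →ₐ[E] K).restrictScalars F).toLinearMap K1.val.injective _)

end prep

section main

/-- Powers with exponents powers of the characteristic. -/
theorem rpow_models (p : ℕ) [Fact p.Prime] {k F E K : Type u} [Field k] [Field F] [Field E]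
    [Field K] [CharP E p] [Algebra k E] [Algebra F E] [Algebra.IsAlgebraic F E] [Algebra E K]
    [Algebra F K] [IsScalarTower F E K] [Algebra k K] [IsScalarTower k E K] (hE : HasLM k E)
    {N : ℕ} (x : Fin N → K) (ε : Fin N → ℕ) (e : ℕ) (hε : ∀ i, ε i ≤ e)
    (ρ : F →+* E) (hρ : ∀ a, (ρ a) ^ p ^ e = algebraMap F E a)
    (htop : IntermediateField.adjoin E (Set.range x) = ⊤) (d D C0 : ℕ)
    (htr : Algebra.trdeg F K = d)
    (hδ : ∀ t : ℕ, d.factorial * Module.finrank F (img F (fun j => x j ^ p ^ ε j) t) ≤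
      D * (t + C0) ^ d) (hD : N ≠ 0 → ((Nat.factorial (D ^ 2 ^ (N - 1)) : ℕ) : k) ≠ 0)
    (B : Type) [Finite B] (G : B → MvPolynomial (Fin N) F)
    (hG : ∀ b, aeval (fun i => x i ^ p ^ ε i) (G b) ≠ 0) (hdeg : ∀ b, (G b).totalDegree ≤ D)
    (C' : Type) [Finite C'] (c : C' → E) (hc : ∀ i, c i ≠ 0) :
    ∃ (T I : Type) (_ : Finite T) (_ : Fintype I) (M : LM (⊥ : Subalgebra k K) ⊤ T I),
      Frc M ∧ (∀ b, IsBr M (aeval (fun i => x i ^ p ^ ε i) (G b))) ∧
      (∀ i, IsBr M (algebraMap E K (c i))) ∧ ∀ i, x i ≠ 0 → IsBr M (x i) := by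
  classical
  have hD1 : 1 ≤ D := one_le_of_growth (fun j => x j ^ p ^ ε j) d D C0 hδ
  let σ := Tuple.sort ε
  have hrange : Set.range (x ∘ σ) = Set.range x := σ.surjective.range_comp x
  have htop' : IntermediateField.adjoin E (Set.range (x ∘ σ)) = ⊤ := by rw [hrange, htop]
  have hRel : Rel p E D e N (ε ∘ σ) K (x ∘ σ) :=
    rel_of_growth' p x ε htop d D C0 htr hδ e ρ hρ N (ε ∘ σ) K (x ∘ σ) (AlgHom.id E K)
      (fun i => ⟨σ i, rfl, rfl⟩) htop'
  have hM := main p k E hE N D hD1 hD e (ε ∘ σ) (Tuple.monotone_sort ε)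
    (fun i => hε (σ i)) K (x ∘ σ) htop' hRel C' c hc
  have hev : ∀ b, ev p (x ∘ σ) e (ε ∘ σ) (MvPolynomial.map ρ (rename σ.symm (G b))) =
      aeval (fun i => x i ^ p ^ ε i) (G b) := by
    intro b
    rw [ev_root' p ρ hρ, aeval_rename]
    congr 2
    funext i
    simp only [Function.comp_apply, Equiv.apply_symm_apply]
  obtain ⟨T, I, hT, hI, M, hFr, hM1, hM2⟩ := hM B
    (fun b => MvPolynomial.map ρ (rename σ.symm (G b))) (fun b => by rw [hev]; exact hG b)
    (fun b => by
      refine le_trans ?_ ((totalDegree_rename_le σ.symm (G b)).trans (hdeg b))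
      exact Finset.sup_mono (support_map_subset _ _))
  refine ⟨T, I, hT, hI, M, hFr, fun b => by rw [← hev]; exact hM1 b, fun i => hM2 (Sum.inl i),
    fun i hi => ?_⟩
  have h1 := hM2 (Sum.inr ⟨σ.symm i, by
    change x (σ (σ.symm i)) ≠ 0
    rw [Equiv.apply_symm_apply]
    exact hi⟩)
  change IsBr M (x (σ (σ.symm i))) at h1
  rw [Equiv.apply_symm_apply] at h1
  exact h1

/-- **Arbitrary powers of the coordinates**, the relative version. -/
theorem rall_models (p : ℕ) [Fact p.Prime] {k F E K : Type u} [Field k] [CharP k p] [Field F]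
    [Field E] [Field K] [Algebra k E] [Algebra F E] [Algebra.IsAlgebraic F E]
    [Algebra E K] [Algebra F K] [IsScalarTower F E K] [Algebra k K] [IsScalarTower k E K]
    (hE : HasLM k E)
    {N : ℕ} (y : Fin N → K) (m : Fin N → ℕ) (e : ℕ) (hm : ∀ i, ¬ p ^ (e + 1) ∣ m i)
    (ρ : F →+* E) (hρ : ∀ a, (ρ a) ^ p ^ e = algebraMap F E a)
    (htop : IntermediateField.adjoin E (Set.range y) = ⊤) (d D C0 : ℕ)
    (htr : Algebra.trdeg F K = d)
    (hδ : ∀ t : ℕ, d.factorial * Module.finrank F (img F (fun j => y j ^ m j) t) ≤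
      D * (t + C0) ^ d) (hD : N ≠ 0 → ((Nat.factorial (D ^ 2 ^ (N - 1)) : ℕ) : k) ≠ 0)
    (B : Type) [Finite B] (G : B → MvPolynomial (Fin N) F)
    (hG : ∀ b, aeval (fun i => y i ^ m i) (G b) ≠ 0) (hdeg : ∀ b, (G b).totalDegree ≤ D)
    (C' : Type) [Finite C'] (c : C' → E) (hc : ∀ i, c i ≠ 0) :
    ∃ (T I : Type) (_ : Finite T) (_ : Fintype I) (M : LM (⊥ : Subalgebra k K) ⊤ T I),
      Frc M ∧ (∀ b, IsBr M (aeval (fun i => y i ^ m i) (G b))) ∧
      (∀ i, IsBr M (algebraMap E K (c i))) ∧ ∀ i, y i ≠ 0 → IsBr M (y i) := by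
  classical
  have := Fintype.ofFinite B
  have := Fintype.ofFinite C'
  have hEp : CharP E p := charP_of_injective_algebraMap (algebraMap k E).injective p
  have hm0 : ∀ i, m i ≠ 0 := by
    intro i h
    apply hm i
    rw [h]
    exact dvd_zero _
  have hfac : ∀ i, ∃ e' n', ¬ p ∣ n' ∧ m i = p ^ e' * n' := fun i =>
    Nat.exists_eq_pow_mul_and_not_dvd (hm0 i) p (Fact.out : p.Prime).ne_one
  choose ε n hn hmn using hfac
  have hε : ∀ i, ε i ≤ e := by
    intro i
    by_contra h
    apply hm i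
    rw [hmn i]
    exact Dvd.dvd.mul_right (pow_dvd_pow p (by omega)) _
  have hn0 : ∀ i, n i ≠ 0 := by
    intro i h
    apply hn i
    rw [h]
    exact dvd_zero _
  let z : Fin N → K := fun i => y i ^ n i
  let K1 : IntermediateField E K := IntermediateField.adjoin E (Set.range z)
  have hz : ∀ i, z i ∈ K1 := fun i => IntermediateField.subset_adjoin _ _ ⟨i, rfl⟩
  let z1 : Fin N → K1 := fun i => ⟨z i, hz i⟩
  have hw : ∀ i, ((z1 i ^ p ^ ε i : K1) : K) = y i ^ m i := by
    intro i
    change (y i ^ n i) ^ p ^ ε i = y i ^ m i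
    rw [← pow_mul, hmn i, mul_comm]
  have htop1 : IntermediateField.adjoin E (Set.range z1) = ⊤ := by
    apply IntermediateField.lift_injective K1
    rw [IntermediateField.lift_adjoin, IntermediateField.lift_top, ← Set.range_comp]
    rfl
  obtain ⟨htop', halg⟩ := alg_of_pow y htop K1 n hn0 hz
  have hs1 : IsScalarTower F K1 K := IsScalarTower.of_algebraMap_eq fun r => rfl
  have hs2 : IsScalarTower k K1 K := IsScalarTower.of_algebraMap_eq fun r => rfl
  have hs3 : IsScalarTower k E K1 := IsScalarTower.of_algebraMap_eq fun r =>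
    Subtype.ext (IsScalarTower.algebraMap_apply k E K r)
  have hs4 : IsScalarTower F E K1 := IsScalarTower.of_algebraMap_eq fun r =>
    Subtype.ext (IsScalarTower.algebraMap_apply F E K r)
  have htr1 : Algebra.trdeg F K1 = d := by
    have h1 : Algebra.trdeg F K1 + Algebra.trdeg K1 K = Algebra.trdeg F K := trdeg_add_eq F K1
    have h2 : Algebra.trdeg K1 K = 0 := trdeg_eq_zero
    rw [← htr, ← h1, h2, add_zero]
  have hδ1 : ∀ t : ℕ, d.factorial * Module.finrank F (img F (fun j => z1 j ^ p ^ ε j) t) ≤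
      D * (t + C0) ^ d := by
    intro t
    rw [finrank_img_val' K1]
    have h1 : (fun i => ((z1 i ^ p ^ ε i : K1) : K)) = fun i => y i ^ m i := funext hw
    rw [h1]
    exact hδ t
  have hval : ∀ g : MvPolynomial (Fin N) F,
      algebraMap K1 K (aeval (fun i => z1 i ^ p ^ ε i) g) = aeval (fun i => y i ^ m i) g := by
    intro g
    have h1 : (fun i => ((K1.val : K1 →ₐ[E] K).restrictScalars F) (z1 i ^ p ^ ε i)) =
        fun i => y i ^ m i := funext hw
    have h2 := congrArg (fun f : MvPolynomial (Fin N) F →ₐ[F] K => f g)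
      (comp_aeval (R := F) (fun i => z1 i ^ p ^ ε i) ((K1.val : K1 →ₐ[E] K).restrictScalars F))
    change ((K1.val : K1 →ₐ[E] K).restrictScalars F) (aeval (fun i => z1 i ^ p ^ ε i) g) =
      aeval _ g at h2
    rw [h1] at h2
    exact h2
  obtain ⟨T, I, hT, hI, M, hFr, hMb, hMc, hMz⟩ := rpow_models p hE z1 ε e hε ρ hρ htop1 d D C0
    htr1 hδ1 hD B G (fun b h => hG b (by rw [← hval, h, map_zero])) hdeg C' c hc
  -- the tame radicals
  let J := {i : Fin N // y i ≠ 0}
  let eq : Fin (Fintype.card J) ≃ J := (Fintype.equivFin J).symm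
  let g : (B ⊕ C') ⊕ J → K1 := Sum.elim
    (Sum.elim (fun b => aeval (fun i => z1 i ^ p ^ ε i) (G b)) fun i => algebraMap E K1 (c i))
    fun i => z1 i
  have hg : ∀ b, IsBr M (g b) := by
    rintro ((b | i) | i)
    · exact hMb b
    · exact hMc i
    · refine hMz i.1 fun h => ?_
      apply pow_ne_zero (n i.1) i.2
      exact congrArg Subtype.val h
  have hgen : IntermediateField.adjoin K1 (Set.range fun j => y (eq j)) = ⊤ := by
    rw [eq_top_iff, ← htop', IntermediateField.adjoin_le_iff]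
    rintro _ ⟨i, rfl⟩
    by_cases h : y i = 0
    · rw [h]
      exact zero_mem _
    · refine IntermediateField.subset_adjoin K1 _ ⟨eq.symm ⟨i, h⟩, ?_⟩
      change y (eq (eq.symm ⟨i, h⟩)) = y i
      rw [Equiv.apply_symm_apply]
  obtain ⟨T', I', hT', hI', M', hFr', hM1, hM2⟩ := kummer_isBr p M hFr g hg
    (fun j => y (eq j)) (fun j => (eq j).2) (fun j => n (eq j))
    (fun j h => hn (eq j) ((CharP.cast_eq_zero_iff k p _).1 h))
    (fun j => Pi.single (Sum.inr (eq j)) 1) (fun j => by
      rw [Finset.prod_eq_single (Sum.inr (eq j))]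
      · rw [Pi.single_eq_same, zpow_one]
        rfl
      · intro l _ hl
        rw [Pi.single_eq_of_ne hl, zpow_zero]
      · intro h
        exact absurd (Finset.mem_univ _) h) hgen
  refine ⟨T', I', hT', hI', M', hFr', fun b => ?_, fun i => ?_, fun i hi => ?_⟩
  · rw [← hval]
    exact hM1 (Sum.inl (Sum.inl b))
  · exact hM1 (Sum.inl (Sum.inr i))
  · have h1 := hM2 (eq.symm ⟨i, hi⟩)
    rw [Equiv.apply_symm_apply] at h1
    exact h1

end main

end Pool.Agent.N762.RC
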