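import Pool.Agent.N762.RC.Fam

/-!
Adjoining one element to a field with models: a variable or a zero of a member of the family.
-/

set_option autoImplicit false
set_option linter.unusedVariables false
set_option linter.unusedSimpArgs false
set_option linter.unusedSectionVars false

universe u

open Polynomial Pool.Agent.W558 Pool.Agent.W498.Tor Pool.Agent.W418.LCI Pool.Agent.N98
  Pool.Agent.W973.CUT Pool.Agent.W973.CUT2

namespace Pool.Agent.N762.RC

section fr

variable {L : Type u} [Field L]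

lemma fr_aeval (g : L[X]) :
    aeval (algebraMap L[X] (FractionRing L[X]) X) g = algebraMap L[X] (FractionRing L[X]) g := by
  have h : (aeval (algebraMap L[X] (FractionRing L[X]) X) : L[X] →ₐ[L] FractionRing L[X]) =
      IsScalarTower.toAlgHom L L[X] (FractionRing L[X]) := by
    apply Polynomial.algHom_ext
    rw [aeval_X]
    rfl
  rw [h]
  rfl

lemma fr_tr : Transcendental L (algebraMap L[X] (FractionRing L[X]) X) := by
  rw [transcendental_iff]
  intro g hg
  rw [fr_aeval] at hg
  exact IsFractionRing.injective L[X] (FractionRing L[X]) (hg.trans (map_zero _).symm)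

lemma fr_top : IntermediateField.adjoin L {algebraMap L[X] (FractionRing L[X]) X} = ⊤ := by
  rw [eq_top_iff]
  intro y _
  obtain ⟨a, b, hb, hab⟩ := IsFractionRing.div_surjective L[X] y
  rw [IntermediateField.mem_adjoin_simple_iff]
  exact ⟨a, b, by rw [fr_aeval, fr_aeval, hab]⟩

end fr

section step

variable {k E L K : Type u} [Field k] [Field E] [Field L] [Field K] [Algebra k L] [Algebra k K]
  [Algebra L K] [IsScalarTower k L K] {n : ℕ}

/-- **One element.** -/
theorem step (φ : MvPolynomial (Fin n) E →+* L) (D : ℕ) {C : Type} [Finite C] (c : C → L)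
    (hc0 : ∀ i, c i ≠ 0) (hM : Mdl k φ (D ^ 2) c) (hDf : ((Nat.factorial D : ℕ) : k) ≠ 0)
    (hD1 : 1 ≤ D) {O : Type} [Finite O] (Gr : O → (MvPolynomial (Fin n) E)[X])
    (hT : ∀ o, TD D (Gr o)) (z : K) (htop : IntermediateField.adjoin L {z} = ⊤)
    (hne : ∀ o, aeval z ((Gr o).map φ) ≠ 0)
    (halt : Transcendental L z ∨ ∃ G : (MvPolynomial (Fin n) E)[X], TD D G ∧ G.map φ ≠ 0 ∧
      aeval z (G.map φ) = 0) :
    ∃ (T I : Type) (_ : Finite T) (_ : Fintype I) (M : LM (⊥ : Subalgebra k K) ⊤ T I),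
      Frc M ∧ (∀ o, IsBr M (aeval z ((Gr o).map φ))) ∧ ∀ i, IsBr M (algebraMap L K (c i)) := by
  classical
  have h0 : ∀ o, (Gr o).map φ ≠ 0 := by
    intro o h
    apply hne o
    rw [h, map_zero]
  rcases halt with hz | ⟨G, hG, hG0, hGz⟩
  · obtain ⟨T, I, hT', hI, M, h1, h2, h3, -⟩ := fam φ D c hM hDf Gr hT h0 z hz htop hD1
    exact ⟨T, I, hT', hI, M, h1, h2, h3⟩
  let K' := FractionRing L[X]
  have hs1 : IsScalarTower k L K' := IsScalarTower.of_algebraMap_eq fun r => rfl
  have hs2 : IsScalarTower k L[X] K' := inferInstance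
  obtain ⟨T, I, hT', hI, M, hFr, hMo, hMc, hMd⟩ := fam (K := K') φ D c hM hDf
    (fun o : Option O => o.elim G Gr)
    (by
      rintro (_ | o)
      · exact hG
      · exact hT o)
    (by
      rintro (_ | o)
      · exact hG0
      · exact h0 o)
    (algebraMap L[X] K' X) fr_tr fr_top hD1
  have halg : IsAlgebraic L z := ⟨G.map φ, hG0, hGz⟩
  have hint : IsIntegral L z := halg.isIntegral
  have hf := minpoly.irreducible hint
  let ev0 : L[X] →ₐ[k] K := (aeval z : L[X] →ₐ[L] K).restrictScalars k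
  have hev : ∀ g : L[X], ev0 g = aeval z g := fun _ => rfl
  obtain ⟨Q, π, hs, hQ, hinv, hg, hun, hrep⟩ := exists_locG ev0
    (fun y => by
      have hy : y ∈ IntermediateField.adjoin L {z} := by rw [htop]; trivial
      exact (IntermediateField.mem_adjoin_simple_iff L y).1 hy)
    (minpoly L z) hf (fun g => (minpoly.dvd_iff (A := L) (x := z)).symm) K'
  have hinj : Function.Injective (algebraMap L[X] K') := IsFractionRing.injective L[X] K'
  have hne' : ∀ g : L[X], g ≠ 0 → algebraMap L[X] K' g ≠ 0 := fun g hg h =>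
    hg (hinj (h.trans (map_zero _).symm))
  have hMf : IsBr M (algebraMap L[X] K' (G.map φ)) := by
    have := hMo none
    rw [← fr_aeval]
    exact this
  have hpf : pq π (algebraMap L[X] K' (G.map φ)) = 0 := by
    rw [(hg _).2, hev]
    exact hGz
  have hpu : pq π (algebraMap L[X] K' (minpoly L z)) = 0 := by
    rw [(hg _).2, hev]
    exact minpoly.aeval L z
  have hLp : ∀ l : L, algebraMap L K' l ∈ Q ∧ pq π (algebraMap L K' l) = algebraMap L K l := by
    intro l
    have e1 : algebraMap L K' l = algebraMap L[X] K' (Polynomial.C l) := rfl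
    rw [e1]
    refine ⟨(hg _).1, ?_⟩
    rw [(hg _).2, hev, aeval_C]
  have hdom : ∀ t, M.A t ≤ Q → ∀ q ∈ Q, ∃ a ∈ M.A t, ∃ b ∈ M.A t, pq π b ≠ 0 ∧ q * b = a := by
    intro t ht q hq
    have hprime : (RingHom.ker (gp π ht)).IsPrime := RingHom.ker_isPrime _
    have hmemk : ∀ a : M.A t, a ∈ RingHom.ker (gp π ht) ↔ pq π a = 0 := by
      intro a
      rw [RingHom.mem_ker]
      have : gp π ht a = pq π a := gp_apply π ht a.2
      rw [this]
    let W := locAt (M.A t) (RingHom.ker (gp π ht)) hprime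
    have hW : ∀ y, y ∈ W ↔ ∃ a ∈ M.A t, ∃ b ∈ M.A t, pq π b ≠ 0 ∧ y * b = a := by
      intro y
      constructor
      · rintro ⟨a, b, hb, hab⟩
        exact ⟨a, a.2, b, b.2, fun h => hb ((hmemk b).2 h), hab⟩
      · rintro ⟨a, ha, b, hb, hb0, hab⟩
        exact ⟨⟨a, ha⟩, ⟨b, hb⟩, fun h => hb0 ((hmemk _).1 h), hab⟩
    obtain ⟨hd2, hd1⟩ := hMd t
    have hAW : M.A t ≤ W := le_locAt
    have hWinv : ∀ b ∈ M.A t, pq π b ≠ 0 → b⁻¹ ∈ W := fun b hb hb0 =>
      inv_mem_locAt (b := (⟨b, hb⟩ : M.A t)) fun h => hb0 ((hmemk _).1 h)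
    -- constants
    have hWE : ∀ l : L, algebraMap L K' l ∈ W := by
      intro l
      obtain ⟨a, b, ha, hb, hb0, he⟩ := hd1 l
      have hbπ : pq π (algebraMap L K' b) ≠ 0 := by
        rw [(hLp b).2]
        exact (_root_.map_ne_zero _).2 hb0
      rw [he, map_mul, map_inv₀]
      exact W.mul_mem (hAW ha) (hWinv _ hb hbπ)
    -- the variable
    have hWX : algebraMap L[X] K' X ∈ W := by
      rcases hd2 with h | h
      · exact hAW h
      · have h1 : algebraMap L[X] K' X ≠ 0 := hne' _ X_ne_zero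
        have h2 : pq π (algebraMap L[X] K' X)⁻¹ ≠ 0 := by
          refine pq_ne π (inv_ne_zero h1) (ht h) ?_
          rw [inv_inv]
          exact (hg _).1
        have h3 := hWinv _ h h2
        rwa [inv_inv] at h3
    have hWR : ∀ r : L[X], algebraMap L[X] K' r ∈ W := by
      intro r
      induction r using Polynomial.induction_on with
      | C a => exact hWE a
      | add p q hp hq => rw [map_add]; exact W.add_mem hp hq
      | monomial n a ih =>
        rw [pow_succ, ← mul_assoc, map_mul]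
        exact W.mul_mem ih hWX
    obtain ⟨r, s, hs', hrs⟩ := hrep q hq
    have hsW : (algebraMap L[X] K' s)⁻¹ ∈ W := by
      obtain ⟨a, ha, b, hb, hb0, hab⟩ := (hW _).1 (hWR s)
      have hb1 : b ≠ 0 := by
        rintro rfl
        exact hb0 (pq_zero π)
      have ha0 : pq π a ≠ 0 := by
        rw [← hab, pq_mul π (hg s).1 (ht hb), (hg s).2]
        exact mul_ne_zero hs' hb0
      have e : (algebraMap L[X] K' s)⁻¹ = b * a⁻¹ := by
        rw [← hab, mul_inv, mul_comm, mul_assoc, inv_mul_cancel₀ hb1, mul_one]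
      rw [e]
      exact W.mul_mem (hAW hb) (hWinv a ha ha0)
    rw [← hW]
    have hs0 : algebraMap L[X] K' s ≠ 0 := by
      apply hne'
      rintro rfl
      exact hs' (map_zero _)
    have e : q = algebraMap L[X] K' r * (algebraMap L[X] K' s)⁻¹ := by
      rw [← hrs, mul_assoc, mul_inv_cancel₀ hs0, mul_one]
    rw [e]
    exact W.mul_mem (hWR r) hsW
  obtain ⟨T', I', hT'', hI', M', hFr', hM'⟩ := cut' π hs hQ hinv (algebraMap L[X] K' (G.map φ))
    (hg _).1 (hne' _ hG0) hpf (algebraMap L[X] K' (minpoly L z)) (hg _).1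
    (hne' _ (minpoly.ne_zero hint)) hpu hun M hMf hdom
  refine ⟨T', I', hT'', hI', M', hFr', fun o => ?_, fun i => ?_⟩
  · have h1 : IsBr M (algebraMap L[X] K' ((Gr o).map φ)) := by
      have := hMo (some o)
      rw [← fr_aeval]
      exact this
    have h2 := hM' _ (hg _).1 (by rw [(hg _).2, hev]; exact hne o) h1
    rwa [(hg _).2, hev] at h2
  · have h2 := hM' _ (hLp (c i)).1 (by
      rw [(hLp (c i)).2]
      exact (_root_.map_ne_zero _).2 (hc0 i)) (hMc i)
    rwa [(hLp (c i)).2] at h2

end step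

end Pool.Agent.N762.RC
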