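import Pool.Agent.N98.Tn
import Pool.Agent.N762.RC.Cut1

/-!
Values of polynomials in powers of the variables with exponents powers of the characteristic.
-/

set_option autoImplicit false
set_option linter.unusedVariables false
set_option linter.unusedSimpArgs false
set_option linter.unusedSectionVars false

universe u

open Polynomial Pool.Agent.W558 Pool.Agent.W418.LCI Pool.Agent.N98

namespace Pool.Agent.N762.RC

section ev

variable (p : ℕ) [Fact p.Prime] {E K : Type u} [Field E] [CharP E p] [Field K] [Algebra E K]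
  {n : ℕ}

/-- The value at the point `x` of the polynomial which is obtained from a polynomial over `E` by
raising the coefficients to the power `p ^ e` and the variable `X i` to the power `p ^ ε i`. -/
noncomputable def ev (x : Fin n → K) (e : ℕ) (ε : Fin n → ℕ) : MvPolynomial (Fin n) E →+* K :=
  MvPolynomial.eval₂Hom ((algebraMap E K).comp (iterateFrobenius E p e)) fun i => x i ^ p ^ ε i

lemma ev_C (x : Fin n → K) (e : ℕ) (ε : Fin n → ℕ) (a : E) :
    ev p x e ε (MvPolynomial.C a) = algebraMap E K (a ^ p ^ e) := by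
  rw [ev, MvPolynomial.coe_eval₂Hom, MvPolynomial.eval₂_C, RingHom.comp_apply,
    iterateFrobenius_def]

lemma ev_X (x : Fin n → K) (e : ℕ) (ε : Fin n → ℕ) (i : Fin n) :
    ev p x e ε (MvPolynomial.X i : MvPolynomial (Fin n) E) = x i ^ p ^ ε i := by
  rw [ev, MvPolynomial.coe_eval₂Hom, MvPolynomial.eval₂_X]

/-- The Frobenius homomorphism takes out a common factor of the exponents. -/
lemma ev_shift (x : Fin n → K) (e : ℕ) (ε : Fin n → ℕ) (c : ℕ) (hc : c ≤ e) (hc' : ∀ i, c ≤ ε i)
    (P : MvPolynomial (Fin n) E) :
    ev p x e ε P = (ev p x (e - c) (fun i => ε i - c) P) ^ p ^ c := by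
  have hK : CharP K p := charP_of_injective_algebraMap (algebraMap E K).injective p
  have h : (iterateFrobenius K p c).comp (ev (E := E) p x (e - c) (fun i => ε i - c)) =
      ev (E := E) p x e ε := by
    apply MvPolynomial.ringHom_ext
    · intro a
      rw [RingHom.comp_apply, ev_C, ev_C, iterateFrobenius_def, ← map_pow, ← pow_mul, ← pow_add,
        Nat.sub_add_cancel hc]
    · intro i
      rw [RingHom.comp_apply, ev_X, ev_X, iterateFrobenius_def, ← pow_mul, ← pow_add,
        Nat.sub_add_cancel (hc' i)]
  rw [← h, RingHom.comp_apply, iterateFrobenius_def]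

/-- The value, in terms of the first variable. -/
lemma ev_fse (x : Fin (n + 1) → K) (e : ℕ) (ε : Fin (n + 1) → ℕ)
    (P : MvPolynomial (Fin (n + 1)) E) :
    (MvPolynomial.finSuccEquiv E n P).eval₂
      ((algebraMap (LF (E := E) x) K).comp (ev p (tl E x) e (ε ∘ Fin.succ))) (x 0 ^ p ^ ε 0) =
      ev p x e ε P := by
  have h : (Polynomial.eval₂RingHom
      ((algebraMap (LF (E := E) x) K).comp (ev p (tl E x) e (ε ∘ Fin.succ))) (x 0 ^ p ^ ε 0)).comp
      ((MvPolynomial.finSuccEquiv E n) : MvPolynomial (Fin (n + 1)) E →+*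
        (MvPolynomial (Fin n) E)[X]) = ev p x e ε := by
    apply MvPolynomial.ringHom_ext
    · intro a
      have h1 : MvPolynomial.finSuccEquiv E n (MvPolynomial.C a) =
          Polynomial.C (MvPolynomial.C a) := (MvPolynomial.finSuccEquiv E n).commutes a
      rw [RingHom.comp_apply, RingHom.coe_coe, h1, Polynomial.coe_eval₂RingHom,
        Polynomial.eval₂_C, RingHom.comp_apply, ev_C, ev_C]
      rfl
    · intro i
      rw [RingHom.comp_apply, RingHom.coe_coe, ev_X, Polynomial.coe_eval₂RingHom]
      refine Fin.cases ?_ (fun i => ?_) i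
      · rw [MvPolynomial.finSuccEquiv_X_zero, Polynomial.eval₂_X]
      · rw [MvPolynomial.finSuccEquiv_X_succ, Polynomial.eval₂_C, RingHom.comp_apply, ev_X]
        rfl
  exact congrArg (fun f : MvPolynomial (Fin (n + 1)) E →+* K => f P) h

end ev

section chi

variable {R S : Type*} [CommRing R] [CommRing S]

/-- The characteristic polynomial of the image. -/
lemma chi_map (φ : R →+* S) (F G : R[X]) (hF : (F.map φ).natDegree = F.natDegree)
    (hG : (G.map φ).natDegree = G.natDegree) :
    (chi F G).map φ = chi (F.map φ) (G.map φ) := by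
  have h1 : (chi F G).map φ = (mapRingHom φ) (chi F G) := rfl
  have h2 : (mapRingHom φ).comp (C : R →+* R[X]) = (C : S →+* S[X]).comp φ := by
    apply RingHom.ext
    intro a
    simp
  rw [h1, chi, chi, ← resultant_map_map, hF, hG]
  congr 1
  · rw [Polynomial.map_map, Polynomial.map_map, h2]
  · rw [Polynomial.map_sub, Polynomial.map_map, Polynomial.map_map, h2, map_C]
    simp

/-- The terms of degree at most `m`. -/
noncomputable def trn (m : ℕ) (G : R[X]) : R[X] :=
  ∑ j ∈ Finset.range (m + 1), monomial j (G.coeff j)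

lemma coeff_trn (m : ℕ) (G : R[X]) (j : ℕ) : (trn m G).coeff j = if j ≤ m then G.coeff j else 0 := by
  rw [trn, finsetSum_coeff]
  simp only [coeff_monomial]
  rw [Finset.sum_ite_eq']
  simp only [Finset.mem_range]
  split_ifs <;> first | rfl | omega

lemma map_trn (φ : R →+* S) (G : R[X]) : (trn (G.map φ).natDegree G).map φ = G.map φ := by
  ext j
  rw [coeff_map, coeff_trn]
  split_ifs with h
  · rw [coeff_map]
  · rw [map_zero, coeff_eq_zero_of_natDegree_lt (by omega)]

lemma natDegree_trn (φ : R →+* S) (G : R[X]) :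
    (trn (G.map φ).natDegree G).natDegree = (G.map φ).natDegree := by
  apply le_antisymm
  · rw [natDegree_le_iff_coeff_eq_zero]
    intro N hN
    rw [coeff_trn, if_neg (by omega)]
  · conv_lhs => rw [← map_trn φ G]
    exact natDegree_map_le

lemma TD.trn {σ E : Type*} [Field E] {D : ℕ} {G : (MvPolynomial σ E)[X]} (h : TD D G) (m : ℕ) :
    TD D (trn m G) := by
  intro i hi
  rw [coeff_trn] at hi ⊢
  split_ifs at hi ⊢ with h1
  · exact h i hi
  · exact absurd rfl hi

end chi

section iter

/-- The derivatives of polynomials of small degree do not vanish. -/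
lemma iter_ne {k L : Type*} [Field k] [Field L] [Algebra k L] {D : ℕ}
    (hD : ((Nat.factorial D : ℕ) : k) ≠ 0) {G : L[X]} (hG : G ≠ 0) (hd : G.natDegree ≤ D) (j : ℕ)
    (hj : j ≤ G.natDegree) : derivative^[j] G ≠ 0 := by
  intro h0
  have h1 : (derivative^[j] G).coeff (G.natDegree - j) = (0 : L[X]).coeff (G.natDegree - j) := by
    rw [h0]
  rw [coeff_iterate_derivative, coeff_zero, Nat.sub_add_cancel hj, nsmul_eq_mul] at h1
  rcases mul_eq_zero.1 h1 with h2 | h2
  · have h3 : G.natDegree.descFactorial j ∣ Nat.factorial D := by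
      refine dvd_trans ?_ (Nat.factorial_dvd_factorial hd)
      exact ⟨_, by rw [mul_comm]; exact (Nat.factorial_mul_descFactorial hj).symm⟩
    obtain ⟨m, hm⟩ := h3
    apply hD
    have h4 : ((G.natDegree.descFactorial j : ℕ) : k) = 0 := by
      have h5 : algebraMap k L ((G.natDegree.descFactorial j : ℕ) : k) = 0 := by
        rw [map_natCast]
        exact h2
      exact (algebraMap k L).injective (h5.trans (map_zero _).symm)
    rw [hm, Nat.cast_mul, h4, zero_mul]
  · rw [coeff_natDegree, leadingCoeff_eq_zero] at h2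
    exact hG h2

end iter

end Pool.Agent.N762.RC
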